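import Pool.Agent.H195R3.Nst

/-!
# Algebraic closure in the nonstandard reals
-/

namespace Pool.Agent.H195R3

open Pool.Agent.H581R2 Filter Cardinal

/-- the nonstandard reals -/
abbrev RS : Type := Germ (HF : Filter ℕ) ℝ

variable {ι : Type}

/-- the tuple of nonstandard reals given by a sequence of tuples -/
noncomputable def st (v : ℕ → ι → ℝ) (i : ι) : RS := ((fun n => v n i : ℕ → ℝ) : RS)

/-- algebraic closure -/
noncomputable def acl {K : Type} [Field K] [CharZero K] (A : Set K) : Set K :=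
  (AlgebraicIndependent.matroid ℚ K).closure A

section acl

variable {K : Type} [Field K] [CharZero K] {A B : Set K}

lemma mem_acl {z : K} : z ∈ acl A ↔ IsAlgebraic (Algebra.adjoin ℚ A) z := by
  rw [acl, AlgebraicIndependent.matroid_closure_eq]
  rfl

lemma subset_acl : A ⊆ acl A := (AlgebraicIndependent.matroid ℚ K).subset_closure A (by simp)

lemma acl_mono (h : A ⊆ B) : acl A ⊆ acl B :=
  (AlgebraicIndependent.matroid ℚ K).closure_subset_closure h

lemma acl_subset (h : A ⊆ acl B) : acl A ⊆ acl B := by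
  have := (AlgebraicIndependent.matroid ℚ K).closure_subset_closure h
  rwa [acl, Matroid.closure_closure] at this

lemma acl_exchange {a z : K} (h1 : z ∉ acl A) (h2 : z ∈ acl (insert a A)) :
    a ∈ acl (insert z A) := by
  have := (AlgebraicIndependent.matroid ℚ K).closure_exchange (e := z) (f := a) (X := A)
    ⟨h2, h1⟩
  exact this.1

lemma zero_mem_acl : (0 : K) ∈ acl A := by
  rw [mem_acl]
  exact isAlgebraic_zero

lemma isAlg_range {g : ι → K} {z : K} : z ∈ acl (Set.range g) ↔
    ∃ P : UP ι, P.map ((MvPolynomial.aeval g : MvPolynomial ι ℚ →ₐ[ℚ] K) :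
      MvPolynomial ι ℚ →+* K) ≠ 0 ∧ (P.map ((MvPolynomial.aeval g : MvPolynomial ι ℚ →ₐ[ℚ] K) :
      MvPolynomial ι ℚ →+* K)).eval z = 0 := by
  rw [mem_acl, Algebra.adjoin_range_eq_range_aeval]
  set R := (MvPolynomial.aeval g : MvPolynomial ι ℚ →ₐ[ℚ] K).range with hR
  let π : MvPolynomial ι ℚ →+* R := ((MvPolynomial.aeval g).rangeRestrict : _ →ₐ[ℚ] R)
  have hπ : Function.Surjective π := AlgHom.rangeRestrict_surjective _
  have hcomp : (algebraMap R K).comp π = ((MvPolynomial.aeval g : MvPolynomial ι ℚ →ₐ[ℚ] K) :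
      MvPolynomial ι ℚ →+* K) := rfl
  have hinj : Function.Injective (algebraMap R K) := Subtype.val_injective
  constructor
  · rintro ⟨p, hp, hz⟩
    obtain ⟨P, rfl⟩ := Polynomial.map_surjective π hπ p
    refine ⟨P, ?_, ?_⟩
    · rw [← hcomp, ← Polynomial.map_map]
      exact (Polynomial.map_ne_zero_iff hinj).2 hp
    · rw [← hcomp, ← Polynomial.map_map, Polynomial.eval_map_algebraMap]
      exact hz
  · rintro ⟨P, hP, hz⟩
    rw [← hcomp, ← Polynomial.map_map] at hP hz
    exact ⟨P.map π, (Polynomial.map_ne_zero_iff hinj).1 hP, by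
      rwa [Polynomial.eval_map_algebraMap] at hz⟩

lemma card_acl_le : #(acl A) ≤ max #A ℵ₀ := by
  have h1 : #(acl A) = #{x : K // IsAlgebraic (Algebra.adjoin ℚ A) x} := by
    refine Cardinal.mk_congr (Equiv.subtypeEquivRight fun z => mem_acl)
  rw [h1]
  have h3 : #(Algebra.adjoin ℚ A) ≤ max #A ℵ₀ := by
    have := Algebra.cardinalMk_adjoin_le ℚ A
    refine this.trans ?_
    rw [Cardinal.mk_denumerable ℚ]
    exact max_le (max_le (le_max_right _ _) (le_max_left _ _)) (le_max_right _ _)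
  refine (Algebraic.cardinalMk_le_max (Algebra.adjoin ℚ A) K).trans ?_
  exact max_le h3 (le_max_right _ _)

end acl

lemma aeval_st (v : ℕ → ι → ℝ) (q : MvPolynomial ι ℚ) :
    MvPolynomial.aeval (st v) q = ((fun n => MvPolynomial.aeval (v n) q : ℕ → ℝ) : RS) := by
  let f : MvPolynomial ι ℚ →+* RS := (MvPolynomial.aeval (st v) : MvPolynomial ι ℚ →ₐ[ℚ] RS)
  let g : MvPolynomial ι ℚ →+* RS := (Germ.coeRingHom (HF : Filter ℕ)).comp
    (RingHom.pi fun n => ((MvPolynomial.aeval (v n) : MvPolynomial ι ℚ →ₐ[ℚ] ℝ) :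
      MvPolynomial ι ℚ →+* ℝ))
  have h : f = g := by
    refine MvPolynomial.ringHom_ext (fun r => ?_) (fun i => ?_)
    · exact RingHom.congr_fun (Subsingleton.elim (f.comp MvPolynomial.C) (g.comp MvPolynomial.C)) r
    · simp only [f, g, RingHom.coe_coe, MvPolynomial.aeval_X, RingHom.comp_apply]
      simp only [st]
      congr 1
      funext n
      simp
  exact RingHom.congr_fun h q

lemma eval_st (v : ℕ → ι → ℝ) (b : ℕ → ℝ) (P : UP ι) :
    (P.map ((MvPolynomial.aeval (st v) : MvPolynomial ι ℚ →ₐ[ℚ] RS) :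
      MvPolynomial ι ℚ →+* RS)).eval (b : RS) =
      ((fun n => (spec (v n) P).eval (b n) : ℕ → ℝ) : RS) := by
  let f : UP ι →+* RS := (Polynomial.eval₂RingHom
    ((MvPolynomial.aeval (st v) : MvPolynomial ι ℚ →ₐ[ℚ] RS) : MvPolynomial ι ℚ →+* RS) (b : RS))
  let g : UP ι →+* RS := (Germ.coeRingHom (HF : Filter ℕ)).comp
    (RingHom.pi fun n => Polynomial.eval₂RingHom
      ((MvPolynomial.aeval (v n) : MvPolynomial ι ℚ →ₐ[ℚ] ℝ) :
      MvPolynomial ι ℚ →+* ℝ) (b n))
  have h : f = g := by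
    refine Polynomial.ringHom_ext (fun r => ?_) ?_
    · simp only [f, g, Polynomial.coe_eval₂RingHom, Polynomial.eval₂_C, RingHom.coe_coe,
        RingHom.comp_apply]
      rw [aeval_st]
      refine congrArg (fun a : ℕ → ℝ => (a : RS)) ?_
      funext n
      simp
    · simp only [f, g, Polynomial.coe_eval₂RingHom, Polynomial.eval₂_X,
        RingHom.comp_apply, Germ.coe_coeRingHom]
      congr 1
      funext n
      simp
  have h2 := RingHom.congr_fun h P
  simp only [f, g, Polynomial.coe_eval₂RingHom, RingHom.comp_apply, Germ.coe_coeRingHom] at h2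
  rw [Polynomial.eval_map, h2]
  congr 1
  funext n
  simp [spec, Polynomial.eval_map]

lemma coe_eq {a b : ℕ → ℝ} : ((a : ℕ → ℝ) : RS) = (b : RS) ↔ ∀ᶠ n in (HF : Filter ℕ), a n = b n :=
  Germ.coe_eq

/-- algebraicity in terms of representatives -/
lemma mem_acl_range (v : ℕ → ι → ℝ) (b : ℕ → ℝ) : (b : RS) ∈ acl (Set.range (st v)) ↔
    ∃ P : UP ι, ∀ᶠ n in (HF : Filter ℕ), spec (v n) P ≠ 0 ∧ (spec (v n) P).eval (b n) = 0 := by
  rw [isAlg_range]
  refine exists_congr fun P => ?_
  rw [eval_st, eventually_and]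
  refine and_congr ?_ ?_
  · constructor
    · intro h
      by_contra hcon
      apply h
      have hcon' := Ultrafilter.eventually_not.2 hcon
      ext i
      rw [Polynomial.coeff_map, Polynomial.coeff_zero]
      rw [RingHom.coe_coe, aeval_st]
      refine coe_eq.2 ?_
      filter_upwards [hcon'] with n hn
      have h2 : spec (v n) P = 0 := by
        by_contra h3
        exact hn h3
      have h3 := congrArg (fun p => p.coeff i) h2
      simpa using h3
    · intro h h0
      have h1 : ∀ i, ∀ᶠ n in (HF : Filter ℕ), MvPolynomial.aeval (v n) (P.coeff i) = 0 := by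
        intro i
        have h2 := congrArg (fun p => p.coeff i) h0
        simp only [Polynomial.coeff_map, Polynomial.coeff_zero, RingHom.coe_coe] at h2
        rw [aeval_st] at h2
        exact coe_eq.1 h2
      have h2 := (Filter.eventually_all_finset (Finset.range (P.natDegree + 1))).2
        fun i _ => h1 i
      obtain ⟨n, hn1, hn2⟩ := (h.and h2).exists
      exact hn1 ((spec_eq_zero_iff _ _).2 hn2)
  · exact coe_eq

/-- internal sets -/
def star (S : ℕ → Set ℝ) : Set RS :=
  {z | ∃ s : ℕ → ℝ, (∀ᶠ n in (HF : Filter ℕ), s n ∈ S n) ∧ z = (s : RS)}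

/-- the generic extension, in terms of the algebraic closure -/
theorem one_point_generic' [Countable ι] {v w : ℕ → ι → ℝ} (h : ST v w) (b : ℕ → ℝ)
    (hb : (b : RS) ∉ acl (Set.range (st v))) (S : ℕ → Set ℝ) (hS : ∀ n, #(S n) < continuum)
    (h0 : ∀ n, (0 : ℝ) ∈ S n) :
    ∃ t : ℕ → ℝ, ST (fun n => ext (b n) (v n)) (fun n => ext (t n) (w n)) ∧
      (t : RS) ∉ acl (Set.range (st w) ∪ star S) := by
  classical
  obtain ⟨t, ht1, ht2⟩ := one_point_generic h b
    (fun P hP => hb ((mem_acl_range v b).2 ⟨P, hP⟩))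
    (fun n => acl (Set.range (w n) ∪ S n)) (fun n => by
      refine card_acl_le.trans_lt (max_lt ?_ aleph0_lt_continuum)
      refine (Cardinal.mk_union_le _ _).trans_lt (Cardinal.add_lt_of_lt aleph0_le_continuum
        ?_ (hS n))
      exact (Cardinal.mk_le_aleph0_iff.2
        (Set.countable_range (w n)).to_subtype).trans_lt aleph0_lt_continuum)
  refine ⟨t, ht1, fun hmem => ?_⟩
  have hex : ∀ z : star S, ∃ s : ℕ → ℝ, (∀ n, s n ∈ S n) ∧ (z : RS) = (s : RS) := by
    rintro ⟨z, s, hs, rfl⟩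
    refine ⟨fun n => if s n ∈ S n then s n else 0, fun n => ?_, ?_⟩
    · dsimp only
      split_ifs with h
      · exact h
      · exact h0 n
    · refine coe_eq.2 ?_
      filter_upwards [hs] with n hn
      rw [if_pos hn]
  choose s hs1 hs2 using hex
  let v' : ℕ → (ι ⊕ star S) → ℝ := fun n => Sum.elim (w n) (fun z => s z n)
  have hrange : Set.range (st w) ∪ star S ⊆ Set.range (st v') := by
    rintro z (⟨i, rfl⟩ | hz)
    · exact ⟨Sum.inl i, rfl⟩
    · exact ⟨Sum.inr ⟨z, hz⟩, (hs2 ⟨z, hz⟩).symm⟩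
  obtain ⟨P, hP⟩ := (mem_acl_range v' t).1 (acl_mono hrange hmem)
  obtain ⟨n, hn1, hn2⟩ := (hP.and ht2).exists
  apply hn2
  have h3 : t n ∈ acl (Set.range (v' n)) := isAlg_range.2 ⟨P, hn1.1, hn1.2⟩
  refine acl_mono ?_ h3
  rintro x ⟨(i | z), rfl⟩
  · exact Or.inl ⟨i, rfl⟩
  · exact Or.inr (hs1 z n)

end Pool.Agent.H195R3
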