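import Pool.Agent.H195R3.Task

/-!
# Generic extensions of sign preserving maps by finitely many points
-/

namespace Pool.Agent.H195R3

open Pool.Agent.H581R2 Filter Cardinal

open Classical in
/-- restrict a tuple to a set of indices -/
noncomputable def mask (O : Set ℕ) (u : ℕ → ℕ → ℝ) : ℕ → ℕ → ℝ := fun n k =>
  if k ∈ O then u n k else 0

lemma mask_of_mem {O : Set ℕ} {u : ℕ → ℕ → ℝ} {n k : ℕ} (h : k ∈ O) : mask O u n k = u n k := by
  simp [mask, h]

lemma mask_of_notMem {O : Set ℕ} {u : ℕ → ℕ → ℝ} {n k : ℕ} (h : k ∉ O) : mask O u n k = 0 := by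
  simp [mask, h]

open Classical in
lemma aeval_update (z : ℕ → ℝ) (j : ℕ) (t : ℝ) (q : MvPolynomial ℕ ℚ) :
    MvPolynomial.aeval (Function.update z j t) q =
      MvPolynomial.aeval (ext t z) (MvPolynomial.rename
        (fun i => if i = j then (none : Option ℕ) else some i) q) := by
  rw [MvPolynomial.aeval_rename]
  congr 2
  funext i
  by_cases h : i = j
  · subst h
    simp
  · simp [h]

/-- algebraicity is transferred by sign types -/
lemma acl_transfer {ι : Type} {v w : ℕ → ι → ℝ} {b t : ℕ → ℝ}
    (h : ST (fun n => ext (b n) (v n)) (fun n => ext (t n) (w n)))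
    (hb : (b : RS) ∈ acl (Set.range (st v))) : (t : RS) ∈ acl (Set.range (st w)) := by
  rw [mem_acl_range] at hb ⊢
  obtain ⟨P, hP⟩ := hb
  refine ⟨P, ?_⟩
  have hp : SAP (fun z : Option ι → ℝ => spec (fun i => z (some i)) P ≠ 0 ∧
      (spec (fun i => z (some i)) P).eval (z none) = 0) :=
    (SAP.spec_ne_zero (fun i => PF.coord (some i)) P).and
      (SAP.eq_zero (PF.spec_eval (fun i => PF.coord (some i)) P (PF.coord none)))
  exact h.sap hp hP

lemma st_eq_of_ST {v w : ℕ → ℕ → ℝ} (h : ST v w) {k l : ℕ} (hkl : st w k = st w l) :
    st v k = st v l := by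
  have h1 := h (MvPolynomial.X k - MvPolynomial.X l)
  refine coe_eq.2 ?_
  filter_upwards [h1, coe_eq.1 hkl] with n h1 h2
  simp only [map_sub, MvPolynomial.aeval_X] at h1
  rw [h2, sub_self, sign_zero, sign_eq_zero_iff] at h1
  linarith

theorem avoid (u w : ℕ → ℕ → ℝ) (O : Set ℕ) (h : ST (mask O u) (mask O w))
    (S : ℕ → Set ℝ) (hS : ∀ n, #(S n) < continuum) (h0 : ∀ n, (0 : ℝ) ∈ S n)
    (N : Finset ℕ) (hN : ∀ k ∈ N, k ∉ O) :
    ∃ x : ℕ → ℕ → ℝ, (∀ n k, k ∉ N → x n k = mask O w n k) ∧
      ST (mask (O ∪ N) u) x ∧
      ∀ z : RS, z ∈ acl (Set.range (st x)) → z ∈ acl (Set.range (st (mask O w)) ∪ star S) →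
        z ∈ acl (Set.range (st (mask O w))) := by
  classical
  induction N using Finset.induction_on with
  | empty => exact ⟨mask O w, fun _ _ _ => rfl, by simpa using h, fun z hz _ => hz⟩
  | insert j N hj ih =>
    obtain ⟨x, hx1, hx2, hx3⟩ := ih fun k hk => hN k (Finset.mem_insert_of_mem hk)
    have hjO : j ∉ O := hN j (Finset.mem_insert_self _ _)
    set u' := mask (O ∪ (N : Set ℕ)) u with hu'
    let b : ℕ → ℝ := fun n => u n j
    -- the choice of the new point
    have hex : ∃ t : ℕ → ℝ, ST (fun n => ext (b n) (u' n)) (fun n => ext (t n) (x n)) ∧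
        ((t : RS) ∈ acl (Set.range (st x)) ∨ (t : RS) ∉ acl (Set.range (st x) ∪ star S)) := by
      by_cases hb : (b : RS) ∈ acl (Set.range (st u'))
      · obtain ⟨t, ht⟩ := one_point hx2 b
        exact ⟨t, ht, Or.inl (acl_transfer ht hb)⟩
      · obtain ⟨t, ht1, ht2⟩ := one_point_generic' hx2 b hb S hS h0
        exact ⟨t, ht1, Or.inr ht2⟩
    obtain ⟨t, ht1, ht2⟩ := hex
    have hsub : Set.range (st (mask O w)) ⊆ acl (Set.range (st x)) := by
      rintro z ⟨k, rfl⟩
      by_cases hk : k ∈ N
      · have : st (mask O w) k = 0 := by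
          refine coe_eq.2 (Eventually.of_forall fun n => ?_)
          exact mask_of_notMem (hN k (Finset.mem_insert_of_mem hk))
        rw [this]
        exact zero_mem_acl
      · have : st (mask O w) k = st x k := by
          refine coe_eq.2 (Eventually.of_forall fun n => ?_)
          exact (hx1 n k hk).symm
        rw [this]
        exact subset_acl ⟨k, rfl⟩
    refine ⟨fun n => Function.update (x n) j (t n), fun n k hk => ?_, fun q => ?_, ?_⟩
    · rw [Finset.mem_insert, not_or] at hk
      show Function.update (x n) j (t n) k = _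
      rw [Function.update_of_ne hk.1]
      exact hx1 n k hk.2
    · have h1 := ht1 (MvPolynomial.rename
        (fun i => if i = j then (none : Option ℕ) else some i) q)
      filter_upwards [h1] with n hn
      rw [aeval_update, ← hn, ← aeval_update]
      congr 2
      congr 1
      funext k
      by_cases hkj : k = j
      · subst hkj
        rw [Function.update_self]
        exact mask_of_mem (Or.inr (by simp))
      · rw [Function.update_of_ne hkj, hu']
        by_cases hk : k ∈ O ∪ (N : Set ℕ)
        · rw [mask_of_mem hk]
          refine mask_of_mem ?_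
          rcases hk with hk | hk
          · exact Or.inl hk
          · exact Or.inr (by simp [Finset.mem_coe.1 hk])
        · rw [mask_of_notMem hk]
          refine mask_of_notMem ?_
          rintro (hk' | hk')
          · exact hk (Or.inl hk')
          · simp only [Finset.coe_insert, Set.mem_insert_iff, Finset.mem_coe] at hk'
            rcases hk' with hk' | hk'
            · exact hkj hk'
            · exact hk (Or.inr hk')
    · intro z hz1 hz2
      have hr : Set.range (st (fun n => Function.update (x n) j (t n))) ⊆
          insert (t : RS) (Set.range (st x)) := by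
        rintro z ⟨k, rfl⟩
        by_cases hkj : k = j
        · subst hkj
          left
          simp [st]
        · right
          refine ⟨k, ?_⟩
          simp [st, Function.update_of_ne hkj]
      have hz3 : z ∈ acl (insert (t : RS) (Set.range (st x))) := acl_mono hr hz1
      refine hx3 z ?_ hz2
      rcases ht2 with ht2 | ht2
      · refine acl_subset ?_ hz3
        rintro y (rfl | hy)
        · exact ht2
        · exact subset_acl hy
      · by_contra hcon
        apply ht2
        have h4 := acl_exchange hcon hz3
        refine acl_subset ?_ h4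
        rintro y (rfl | hy)
        · refine acl_subset ?_ hz2
          rintro y' (hy' | hy')
          · exact acl_mono Set.subset_union_left (hsub hy')
          · exact subset_acl (Or.inr hy')
        · exact subset_acl (Or.inl hy)

end Pool.Agent.H195R3
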