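import Pool.Agent.H96R3.BC.Stmts

set_option autoImplicit false

/-!
# Project BIGCOEF, task LAGA (helper195): averaged Lagrange interpolation on separated groups
-/

namespace Pool.Agent.H195R3.BC

open Finset Polynomial Pool.Agent.H96R3.BC

section
variable {m : ℕ} (G : Fin m → Finset ℕ) (x : ℕ → ℝ)

/-- the Lagrange basis polynomial of the tuple -/
noncomputable def ell (t : Fin m → ℕ) (i : Fin m) (u : ℝ) : ℝ :=
  (Lagrange.basis univ (fun l => x (t l)) i).eval u

lemma ell_eq (t : Fin m → ℕ) (i : Fin m) (u : ℝ) :
    ell x t i u = ∏ l ∈ univ.erase i, ((x (t i) - x (t l))⁻¹ * (u - x (t l))) := by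
  unfold ell Lagrange.basis
  rw [eval_prod]
  refine Finset.prod_congr rfl fun l _ => ?_
  simp [Lagrange.basisDivisor]

/-- the weight -/
noncomputable def W (p : ℕ) (u : ℝ) : ℝ :=
  (1 / (∏ l, ((G l).card : ℝ))) *
    ∑ t ∈ Fintype.piFinset G, ∑ i, if t i = p then ell x t i u else 0

end

theorem lagA : TaskLagA := by
  intro m a b K hm hab hK G x hG hx hsep
  have hba : 0 < b - a := by linarith
  have hK0 : 0 < K := by linarith
  obtain ⟨N, hN⟩ : ∃ N : ℝ, N = ∏ l, ((G l).card : ℝ) := ⟨_, rfl⟩
  have hGp : ∀ l, 0 < ((G l).card : ℝ) := fun l => by exact_mod_cast (hG l).card_pos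
  have hNpos : 0 < N := hN ▸ Finset.prod_pos fun l _ => hGp l
  have hTcard : ((Fintype.piFinset G).card : ℝ) = N := by
    rw [Fintype.card_piFinset, hN]; push_cast; rfl
  have hinj : ∀ t ∈ Fintype.piFinset G, Set.InjOn (fun l => x (t l)) (univ : Finset (Fin m)) := by
    intro t ht i _ l _ h
    by_contra hne
    have h1 := hsep i l hne (t i) (Fintype.mem_piFinset.1 ht i) (t l) (Fintype.mem_piFinset.1 ht l)
    have h2 : x (t i) - x (t l) = 0 := by simpa [sub_eq_zero] using h
    rw [h2, abs_zero] at h1
    have : 0 < (b - a) / K := by positivity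
    linarith
  have hell : ∀ t ∈ Fintype.piFinset G, ∀ i u, a ≤ u → u ≤ b → |ell x t i u| ≤ K ^ (m - 1) := by
    intro t ht i u hu1 hu2
    rw [ell_eq, Finset.abs_prod]
    calc ∏ l ∈ univ.erase i, |(x (t i) - x (t l))⁻¹ * (u - x (t l))|
        ≤ ∏ l ∈ univ.erase i, K := by
          refine Finset.prod_le_prod (fun _ _ => abs_nonneg _) fun l hl => ?_
          have hne : i ≠ l := (Finset.ne_of_mem_erase hl).symm
          have h1 := hsep i l hne (t i) (Fintype.mem_piFinset.1 ht i) (t l)
            (Fintype.mem_piFinset.1 ht l)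
          have h0 : 0 < (b - a) / K := by positivity
          have h2 : |u - x (t l)| ≤ b - a := by
            have h3 := hx l (t l) (Fintype.mem_piFinset.1 ht l)
            rw [abs_le]; constructor <;> linarith [h3.1, h3.2]
          rw [abs_mul, abs_inv]
          calc |x (t i) - x (t l)|⁻¹ * |u - x (t l)| ≤ ((b - a) / K)⁻¹ * (b - a) := by
                apply mul_le_mul (inv_anti₀ h0 h1) h2 (abs_nonneg _) (by positivity)
            _ = K := by field_simp
      _ = K ^ (m - 1) := by
          rw [Finset.prod_const, Finset.card_erase_of_mem (mem_univ _), Finset.card_univ,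
            Fintype.card_fin]
  have hdisj : ∀ i l, i ≠ l → ∀ p ∈ G i, p ∉ G l := by
    intro i l hne p hp hp2
    have h1 := hsep i l hne p hp p hp2
    rw [sub_self, abs_zero] at h1
    have : 0 < (b - a) / K := by positivity
    linarith
  refine ⟨W G x, ?_, ?_, ?_, ?_⟩
  · intro p
    unfold W
    refine continuous_const.mul (continuous_finsetSum _ fun t _ => continuous_finsetSum _
      fun i _ => ?_)
    split_ifs
    · exact Polynomial.continuous _
    · exact continuous_const
  · intro p hp u
    unfold W
    rw [Finset.sum_eq_zero, mul_zero]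
    intro t ht
    refine Finset.sum_eq_zero fun i _ => ?_
    rw [if_neg]
    rintro rfl
    exact hp i (Fintype.mem_piFinset.1 ht i)
  · intro i p hp u hu1 hu2
    unfold W
    have h1 : ∀ t ∈ Fintype.piFinset G, (∑ l, if t l = p then ell x t l u else 0) =
        if t i = p then ell x t i u else 0 := by
      intro t ht
      refine Finset.sum_eq_single_of_mem i (mem_univ _) fun l _ hl => ?_
      rw [if_neg]
      rintro rfl
      exact hdisj i l (Ne.symm hl) _ hp (Fintype.mem_piFinset.1 ht l)
    rw [← hN, Finset.sum_congr rfl h1, ← Finset.sum_filter, abs_mul, abs_of_pos (one_div_pos.2 hNpos)]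
    have h2 : |∑ t ∈ (Fintype.piFinset G).filter (fun t => t i = p), ell x t i u| ≤
        (∏ j ∈ univ.erase i, ((G j).card : ℝ)) * K ^ (m - 1) := by
      refine (Finset.abs_sum_le_sum_abs _ _).trans ?_
      refine (Finset.sum_le_card_nsmul _ _ (K ^ (m - 1)) fun t ht =>
        hell t (Finset.mem_filter.1 ht).1 i u hu1 hu2).trans ?_
      rw [Fintype.card_filter_piFinset_eq_of_mem _ _ hp, nsmul_eq_mul]
      push_cast
      rfl
    have h3 : N = ((G i).card : ℝ) * ∏ j ∈ univ.erase i, ((G j).card : ℝ) := by
      rw [hN]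
      exact (Finset.mul_prod_erase univ (fun l => ((G l).card : ℝ)) (mem_univ i)).symm
    have hGi : 0 < ((G i).card : ℝ) := hGp i
    have hrest : 0 < ∏ j ∈ univ.erase i, ((G j).card : ℝ) :=
      Finset.prod_pos fun l _ => hGp l
    generalize (∏ j ∈ univ.erase i, ((G j).card : ℝ)) = R at h2 h3 hrest
    generalize ((G i).card : ℝ) = R2 at h3 hGi ⊢
    clear hN hTcard
    calc 1 / N * |∑ t ∈ (Fintype.piFinset G).filter (fun t => t i = p), ell x t i u|
        ≤ 1 / N * (R * K ^ (m - 1)) :=
          mul_le_mul_of_nonneg_left h2 (one_div_pos.2 hNpos).le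
      _ = K ^ (m - 1) / R2 := by
          rw [h3, div_mul_eq_mul_div, one_mul, mul_comm R2 R, mul_div_mul_left _ _ hrest.ne']
  · intro S hS
    have hmem : ∀ t ∈ Fintype.piFinset G, ∀ i, t i ∈ S := fun t ht i =>
      hS i (Fintype.mem_piFinset.1 ht i)
    refine ⟨?_, ?_⟩
    · intro u hu1 hu2
      have h1 : ∀ p, |W G x p u| ≤
          1 / N * ∑ t ∈ Fintype.piFinset G, ∑ i, if t i = p then K ^ (m - 1) else 0 := by
        intro p
        unfold W
        rw [← hN, abs_mul, abs_of_pos (one_div_pos.2 hNpos)]
        refine mul_le_mul_of_nonneg_left ?_ (one_div_pos.2 hNpos).le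
        refine (Finset.abs_sum_le_sum_abs _ _).trans (Finset.sum_le_sum fun t ht => ?_)
        refine (Finset.abs_sum_le_sum_abs _ _).trans (Finset.sum_le_sum fun i _ => ?_)
        split_ifs
        · exact hell t ht i u hu1 hu2
        · simp
      refine (Finset.sum_le_sum fun p _ => h1 p).trans ?_
      rw [← Finset.mul_sum, Finset.sum_comm]
      have h2 : ∀ t ∈ Fintype.piFinset G,
          ∑ p ∈ S, ∑ i, (if t i = p then K ^ (m - 1) else 0) = (m : ℝ) * K ^ (m - 1) := by
        intro t ht
        rw [Finset.sum_comm]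
        have h3 : ∀ i ∈ (univ : Finset (Fin m)),
            ∑ p ∈ S, (if t i = p then K ^ (m - 1) else 0) = K ^ (m - 1) := by
          intro i _
          rw [Finset.sum_ite_eq, if_pos (hmem t ht i)]
        rw [Finset.sum_congr rfl h3]
        simp
      rw [Finset.sum_congr rfl h2, Finset.sum_const, nsmul_eq_mul, hTcard]
      apply le_of_eq
      rw [← mul_assoc, one_div, inv_mul_cancel₀ hNpos.ne', one_mul]
    · intro P hP u
      have h1 : ∀ p ∈ S, W G x p u * P.eval (x p) =
          1 / N * ∑ t ∈ Fintype.piFinset G, ∑ i,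
            if t i = p then ell x t i u * P.eval (x (t i)) else 0 := by
        intro p _
        unfold W
        rw [← hN, mul_assoc, Finset.sum_mul]
        congr 1
        refine Finset.sum_congr rfl fun t _ => ?_
        rw [Finset.sum_mul]
        refine Finset.sum_congr rfl fun i _ => ?_
        split_ifs with h
        · rw [h]
        · rw [zero_mul]
      rw [Finset.sum_congr rfl h1, ← Finset.mul_sum, Finset.sum_comm]
      have h2 : ∀ t ∈ Fintype.piFinset G,
          ∑ p ∈ S, ∑ i, (if t i = p then ell x t i u * P.eval (x (t i)) else 0) = P.eval u := by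
        intro t ht
        rw [Finset.sum_comm]
        have h3 : ∀ i ∈ (univ : Finset (Fin m)),
            ∑ p ∈ S, (if t i = p then ell x t i u * P.eval (x (t i)) else 0) =
              ell x t i u * P.eval (x (t i)) := by
          intro i _
          rw [Finset.sum_ite_eq, if_pos (hmem t ht i)]
        rw [Finset.sum_congr rfl h3]
        have hdeg : P.degree < (univ : Finset (Fin m)).card := by
          rw [Finset.card_univ, Fintype.card_fin]
          refine lt_of_le_of_lt degree_le_natDegree ?_
          exact_mod_cast hP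
        have h4 := Lagrange.eq_interpolate (hinj t ht) hdeg
        conv_rhs => rw [h4]
        rw [Lagrange.interpolate_apply, eval_finsetSum]
        refine Finset.sum_congr rfl fun i _ => ?_
        rw [eval_mul, eval_C, mul_comm]
        rfl
      rw [Finset.sum_congr rfl h2, Finset.sum_const, nsmul_eq_mul, hTcard]
      rw [← mul_assoc, one_div, inv_mul_cancel₀ hNpos.ne', one_mul]

end Pool.Agent.H195R3.BC
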