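import Pool.Agent.H195R3.Extend

/-!
# The extension theorem for the back and forth system
-/

namespace Pool.Agent.H195R3

open Pool.Agent.H581R2 Filter Cardinal

theorem extend {f : ℝ → ℝ} (hf : Generic f) {v w : ℕ → ℕ → ℝ} (h : BF f v w) (x : ℕ → ℝ)
    (Y : Set ℝ) (hY : Y.Countable) :
    ∃ (v' w' : ℕ → ℕ → ℝ) (j : ℕ → ℕ) (k0 : ℕ), BF f v' w' ∧ (∀ i, st v' (j i) = st v i) ∧
      (∀ i, st w' (j i) = st w i) ∧ st v' k0 = (x : RS) ∧
      ((x : RS) ∉ Set.range (st v) → ∀ᶠ n in (HF : Filter ℕ), w' n k0 ∉ Y) := by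
  classical
  obtain ⟨u, hcl, hsub, hinj⟩ := exists_closed f
    (A := insert (x : RS) (Set.range (st v))) ((Set.countable_range _).insert _)
  have hj : ∀ i, ∃ k, st u k = st v i := fun i => hsub (Or.inr ⟨i, rfl⟩)
  choose j hj using hj
  obtain ⟨k0, hk0⟩ := hsub (Or.inl rfl)
  set O : Set ℕ := {k | st u k ∈ Set.range (st v)} with hO
  have hω : ∀ k, ∃ i, k ∈ O → st v i = st u k := by
    intro k
    by_cases hk : k ∈ O
    · obtain ⟨i, hi⟩ := hk
      exact ⟨i, fun _ => hi⟩
    · exact ⟨0, fun h => absurd h hk⟩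
  choose ω hω using hω
  have hs : ∀ q : MvPolynomial ℕ ℚ, ∃ s, ∀ᶠ n in (HF : Filter ℕ),
      SignType.sign (MvPolynomial.aeval (u n) q) = s := fun q => exists_lim _
  choose s hs using hs
  choose τ hτ using hcl.fn
  obtain ⟨y, hy⟩ : ∃ y : ℕ → ℝ, insert 0 Y = Set.range y :=
    (hY.insert 0).exists_eq_range (Set.insert_nonempty _ _)
  obtain ⟨q, hq⟩ := exists_surjective_nat (MvPolynomial ℕ ℚ)
  have hτO : ∀ k ∈ O, τ k ∈ O := by
    intro k hk
    obtain ⟨l, hl⟩ := h.clv.fn (ω k)
    refine ⟨l, ?_⟩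
    refine coe_eq.2 ?_
    filter_upwards [hl, hτ k, coe_eq.1 (hω k hk)] with n h1 h2 h3
    rw [← h1, ← h2, h3]
  -- the values of `f` at the old indices
  have hold : ∀ k ∈ O, ∀ᶠ n in (HF : Filter ℕ), f (w n (ω k)) = w n (ω (τ k)) := by
    intro k hk
    rw [← h.fc]
    filter_upwards [hτ k, coe_eq.1 (hω k hk), coe_eq.1 (hω _ (hτO k hk))] with n h1 h2 h3
    rw [h2, h3, h1]
  obtain ⟨w', hw'⟩ := sat (W := ℕ → ℝ)
    (fun i n => {z | (i ∈ O → z i = w n (ω i)) ∧
      SignType.sign (MvPolynomial.aeval z (q i)) = s (q i) ∧ f (z i) = z (τ i) ∧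
      (i ∉ O → z i ∉ Y)}) (by
      intro K
      obtain ⟨M, hM⟩ : ∃ M, K < M ∧ ∀ i ≤ K, τ i < M ∧ ∀ l ∈ (q i).vars, l < M := by
        obtain ⟨M1, hM1⟩ := ((Finset.range (K + 1)).image τ ∪
          (Finset.range (K + 1)).biUnion fun i => (q i).vars).exists_nat_subset_range
        refine ⟨K + 1 + M1, by omega, fun i hi => ⟨?_, fun l hl => ?_⟩⟩
        · have := hM1 (Finset.mem_union_left _ (Finset.mem_image_of_mem τ
            (Finset.mem_range.2 (show i < K + 1 by omega))))
          have := Finset.mem_range.1 this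
          omega
        · have := hM1 (Finset.mem_union_right _ (Finset.mem_biUnion.2 ⟨i,
            Finset.mem_range.2 (show i < K + 1 by omega), hl⟩))
          have := Finset.mem_range.1 this
          omega
      let N : Finset ℕ := (Finset.range M).filter (· ∉ O)
      have hNO : ∀ k ∈ N, k ∉ O := fun k hk => (Finset.mem_filter.1 hk).2
      have hNmem : ∀ k < M, k ∉ O → k ∈ N := fun k hk hkO =>
        Finset.mem_filter.2 ⟨Finset.mem_range.2 hk, hkO⟩
      have hlarge := large_tasks h hinj j hj O hO ω hω s hs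
        ((Finset.range (K + 1)).image q) N hNO (by
          intro q' hq' i hi
          obtain ⟨k, hk, rfl⟩ := Finset.mem_image.1 hq'
          have hk' := Finset.mem_range.1 hk
          by_cases hiO : i ∈ O
          · exact Or.inl hiO
          · exact Or.inr (hNmem i ((hM.2 k (by omega)).2 i hi) hiO)) τ y
      have hold' := (Filter.eventually_all_finset (Finset.range (K + 1))).2
        fun k _ => show ∀ᶠ n in (HF : Filter ℕ), (k ∈ O → f (w n (ω k)) = w n (ω (τ k))) from by
          by_cases hk : k ∈ O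
          · exact (hold k hk).mono fun n hn _ => hn
          · exact Eventually.of_forall fun n hn => absurd hn hk
      filter_upwards [hlarge, hold'] with n hL hn
      obtain ⟨z, ⟨hz1, hz2, -, hz4⟩, hz5⟩ := hf _ hL
      simp only at hz1 hz2 hz4 hz5
      have hzO : ∀ i ∈ O, z i = w n (ω i) := by
        intro i hi
        rw [hz1 i (fun hmem => hNO i hmem hi), mask_of_mem hi]
      refine ⟨z, fun i hi => ⟨hzO i, ?_, ?_, ?_⟩⟩
      · exact hz4 _ (Finset.mem_image_of_mem q (Finset.mem_range.2 (by omega)))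
      · by_cases hiO : i ∈ O
        · rw [hzO i hiO, hzO _ (hτO i hiO)]
          exact hn i (Finset.mem_range.2 (by omega)) hiO
        · exact hz5 i (hNmem i (by omega) hiO)
      · intro hiO hmem
        refine hz2 i (hNmem i (by omega) hiO) ?_
        rw [← hy]
        exact Or.inr hmem)
  have hty : ST u w' := by
    intro q'
    obtain ⟨i, rfl⟩ := hq q'
    filter_upwards [hs (q i), hw' i] with n h1 h2
    rw [h1, h2.2.1]
  have hτ' : ∀ i, ∀ᶠ n in (HF : Filter ℕ), f (w' n i) = w' n (τ i) := fun i =>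
    (hw' i).mono fun n hn => hn.2.2.1
  refine ⟨u, w', j, k0, ⟨hty, hcl, ⟨closed_of_ST hty hcl.alg, fun i => ⟨τ i, hτ' i⟩⟩, ?_⟩, hj,
    ?_, hk0, ?_⟩
  · intro i l
    constructor
    · intro hil
      have : st u l = st u (τ i) := by
        refine coe_eq.2 ?_
        filter_upwards [hil, hτ i] with n h1 h2
        rw [← h1, ← h2]
      rw [hinj this]
      exact hτ' i
    · intro hil
      have h1 : st w' l = st w' (τ i) := by
        refine coe_eq.2 ?_
        filter_upwards [hil, hτ' i] with n h1 h2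
        rw [← h1, ← h2]
      have h2 := hinj (st_eq_of_ST hty h1)
      rw [h2]
      exact hτ i
  · intro i
    have hi : j i ∈ O := ⟨i, (hj i).symm⟩
    have h1 : st w' (j i) = st w (ω (j i)) := by
      refine coe_eq.2 ?_
      filter_upwards [hw' (j i)] with n hn
      exact hn.1 hi
    rw [h1]
    refine st_eq_of_ST h.ty.symm ?_
    rw [hω _ hi, hj]
  · intro hx
    have hk0O : k0 ∉ O := by
      intro hmem
      apply hx
      rw [← hk0]
      exact hmem
    exact (hw' k0).mono fun n hn => hn.2.2.2 hk0O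

end Pool.Agent.H195R3
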