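import Pool.Agent.H111R5.CP.Stmts

set_option autoImplicit false

/-! Project H111-CP, task H (helper195): the correlation kernel. -/

open MeasureTheory ProbabilityTheory Filter Finset

namespace Pool.Agent.H195R3.CP

open Pool.Agent.H111R5.CP

lemma nsq_nonneg (x : Fin 3 → ℤ) : 0 ≤ nsq x := Finset.sum_nonneg fun _ _ => sq_nonneg _

lemma hh_mul (x : Fin 3 → ℤ) : hh x * nsq x = 1 - Real.exp (-nsq x) := by
  have h : ∫ t in (0 : ℝ)..1, nsq x * Real.exp (-(t * nsq x)) =
      -Real.exp (-(1 * nsq x)) - -Real.exp (-(0 * nsq x)) := by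
    apply intervalIntegral.integral_eq_sub_of_hasDerivAt (f := fun t => -Real.exp (-(t * nsq x)))
    · intro t _
      have h1 : HasDerivAt (fun t : ℝ => -(t * nsq x)) (-(1 * nsq x)) t :=
        ((hasDerivAt_id t).mul_const (nsq x)).neg
      have h2 := h1.exp.neg
      have h3 : nsq x * Real.exp (-(t * nsq x)) =
          -(Real.exp (-(t * nsq x)) * -(1 * nsq x)) := by ring
      rw [h3]
      exact h2
    · exact (by fun_prop : Continuous fun t : ℝ => nsq x * Real.exp (-(t * nsq x))).intervalIntegrable _ _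
  rw [intervalIntegral.integral_const_mul] at h
  unfold hh
  rw [mul_comm, h]
  simp
  ring

lemma ii (x : Fin 3 → ℤ) :
    IntervalIntegrable (fun t : ℝ => Real.exp (-(t * nsq x))) volume 0 1 :=
  (by fun_prop : Continuous fun t : ℝ => Real.exp (-(t * nsq x))).intervalIntegrable _ _

/-- the scalar product -/
noncomputable def dotp (x y : Fin 3 → ℤ) : ℝ := ∑ i : Fin 3, (x i : ℝ) * (y i : ℝ)

lemma nsq_sub (x y : Fin 3 → ℤ) : nsq (x - y) = nsq x + nsq y - 2 * dotp x y := by
  unfold nsq dotp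
  simp only [Fin.sum_univ_three, Pi.sub_apply]
  push_cast
  ring

lemma psd_pow (s : Finset (Fin 3 → ℤ)) (b : (Fin 3 → ℤ) → ℝ) (k : ℕ) :
    0 ≤ ∑ x ∈ s, ∑ y ∈ s, b x * b y * dotp x y ^ k := by
  have h : ∀ x y : Fin 3 → ℤ, dotp x y ^ k =
      ∑ p : Fin k → Fin 3, (∏ j, (x (p j) : ℝ)) * ∏ j, (y (p j) : ℝ) := by
    intro x y
    unfold dotp
    rw [Fintype.sum_pow]
    exact Finset.sum_congr rfl fun p _ => Finset.prod_mul_distrib
  have h2 : ∑ x ∈ s, ∑ y ∈ s, b x * b y * dotp x y ^ k =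
      ∑ p : Fin k → Fin 3, (∑ x ∈ s, b x * ∏ j, (x (p j) : ℝ)) ^ 2 := by
    have h3 : ∀ p : Fin k → Fin 3, (∑ x ∈ s, b x * ∏ j, (x (p j) : ℝ)) ^ 2 =
        ∑ x ∈ s, ∑ y ∈ s, (b x * ∏ j, (x (p j) : ℝ)) * (b y * ∏ j, (y (p j) : ℝ)) := by
      intro p
      rw [sq, Finset.sum_mul_sum]
    simp only [h3]
    conv_rhs => rw [Finset.sum_comm]
    refine Finset.sum_congr rfl fun x _ => ?_
    conv_rhs => rw [Finset.sum_comm]
    refine Finset.sum_congr rfl fun y _ => ?_
    rw [h, Finset.mul_sum]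
    refine Finset.sum_congr rfl fun p _ => ?_
    ring
  rw [h2]
  exact Finset.sum_nonneg fun _ _ => sq_nonneg _

lemma hasSum_exp' (z : ℝ) : HasSum (fun n : ℕ => z ^ n / (n.factorial : ℝ)) (Real.exp z) := by
  rw [Real.exp_eq_exp_ℝ]
  exact NormedSpace.expSeries_div_hasSum_exp z

lemma psd_exp (s : Finset (Fin 3 → ℤ)) (b : (Fin 3 → ℤ) → ℝ) (t : ℝ) (ht : 0 ≤ t) :
    0 ≤ ∑ x ∈ s, ∑ y ∈ s, b x * b y * Real.exp (2 * t * dotp x y) := by
  have h : HasSum (fun n : ℕ => ∑ x ∈ s, ∑ y ∈ s,
      b x * b y * ((2 * t * dotp x y) ^ n / (n.factorial : ℝ)))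
      (∑ x ∈ s, ∑ y ∈ s, b x * b y * Real.exp (2 * t * dotp x y)) :=
    hasSum_sum fun x _ => hasSum_sum fun y _ => (hasSum_exp' _).mul_left _
  refine h.nonneg fun n => ?_
  have h2 : ∑ x ∈ s, ∑ y ∈ s, b x * b y * ((2 * t * dotp x y) ^ n / (n.factorial : ℝ)) =
      ((2 * t) ^ n / (n.factorial : ℝ)) * ∑ x ∈ s, ∑ y ∈ s, b x * b y * dotp x y ^ n := by
    rw [Finset.mul_sum]
    refine Finset.sum_congr rfl fun x _ => ?_
    rw [Finset.mul_sum]
    refine Finset.sum_congr rfl fun y _ => ?_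
    rw [mul_pow]
    ring
  rw [h2]
  exact mul_nonneg (by positivity) (psd_pow s b n)

lemma psd_t (s : Finset (Fin 3 → ℤ)) (a : (Fin 3 → ℤ) → ℝ) (t : ℝ) (ht : 0 ≤ t) :
    0 ≤ ∑ x ∈ s, ∑ y ∈ s, a x * a y * Real.exp (-(t * nsq (x - y))) := by
  have h := psd_exp s (fun x => a x * Real.exp (-(t * nsq x))) t ht
  refine h.trans (le_of_eq ?_)
  refine Finset.sum_congr rfl fun x _ => Finset.sum_congr rfl fun y _ => ?_
  rw [nsq_sub]
  have : -(t * (nsq x + nsq y - 2 * dotp x y)) = -(t * nsq x) + -(t * nsq y) + 2 * t * dotp x y := by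
    ring
  rw [this, Real.exp_add, Real.exp_add]
  ring

theorem taskH : TaskH := by
  have hneg : ∀ x : Fin 3 → ℤ, nsq (-x) = nsq x := by
    intro x
    unfold nsq
    simp
  have h0 : nsq 0 = 0 := by unfold nsq; simp
  refine ⟨?_, ?_, ?_, ?_, ?_⟩
  · unfold hh
    rw [h0]
    simp
  · intro x
    unfold hh
    rw [hneg]
  · intro x
    refine ⟨?_, ?_, ?_⟩
    · exact intervalIntegral.integral_nonneg zero_le_one fun t _ => (Real.exp_pos _).le
    · have h1 : hh x ≤ ∫ _t in (0 : ℝ)..1, (1 : ℝ) := by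
        refine intervalIntegral.integral_mono_on zero_le_one (ii x) (by simp) ?_
        intro t ht
        rw [Real.exp_le_one_iff]
        have := mul_nonneg ht.1 (nsq_nonneg x)
        linarith
      simpa using h1
    · rw [hh_mul]
      have := Real.exp_pos (-nsq x)
      linarith
  · intro s a
    have h : ∑ x ∈ s, ∑ y ∈ s, a x * a y * hh (x - y) =
        ∫ t in (0 : ℝ)..1, ∑ x ∈ s, ∑ y ∈ s, a x * a y * Real.exp (-(t * nsq (x - y))) := by
      rw [intervalIntegral.integral_finsetSum]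
      · refine Finset.sum_congr rfl fun x _ => ?_
        rw [intervalIntegral.integral_finsetSum]
        · refine Finset.sum_congr rfl fun y _ => ?_
          rw [intervalIntegral.integral_const_mul]
          rfl
        · intro y _
          exact (ii (x - y)).const_mul _
      · intro x _
        exact Continuous.intervalIntegrable (by fun_prop) _ _
    rw [h]
    exact intervalIntegral.integral_nonneg zero_le_one fun t ht => psd_t s a t ht.1
  · have h1 : (fun x : Fin 3 → ℤ => hh x * nsq x) = fun x => 1 - Real.exp (-nsq x) :=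
      funext hh_mul
    rw [h1]
    have h2 : Tendsto nsq cofinite atTop := by
      rw [Filter.tendsto_atTop]
      intro R
      rw [Filter.eventually_cofinite]
      obtain ⟨M, hM⟩ := exists_nat_gt (max R 1)
      refine (Set.finite_Icc (fun _ : Fin 3 => -(M : ℤ)) (fun _ => (M : ℤ))).subset ?_
      intro x hx
      simp only [Set.mem_ofPred_eq, not_le] at hx
      have hb : ∀ i, |(x i : ℝ)| ≤ M := by
        intro i
        have h3 : (x i : ℝ) ^ 2 ≤ nsq x :=
          Finset.single_le_sum (f := fun i => (x i : ℝ) ^ 2) (fun _ _ => sq_nonneg _)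
            (Finset.mem_univ i)
        have h4 : (1 : ℝ) < M := lt_of_le_of_lt (le_max_right _ _) hM
        have h5 : R < M := lt_of_le_of_lt (le_max_left _ _) hM
        by_contra hcon
        push Not at hcon
        have h6 : (M : ℝ) * M < |(x i : ℝ)| * |(x i : ℝ)| := by
          nlinarith
        rw [abs_mul_abs_self] at h6
        nlinarith
      constructor
      · intro i
        have := (abs_le.1 (hb i)).1
        exact_mod_cast this
      · intro i
        have := (abs_le.1 (hb i)).2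
        exact_mod_cast this
    have h3 : Tendsto (fun x : Fin 3 → ℤ => Real.exp (-nsq x)) cofinite (nhds 0) :=
      Real.tendsto_exp_neg_atTop_nhds_zero.comp h2
    simpa using h3.const_sub 1

end Pool.Agent.H195R3.CP
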