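import Pool.Agent.H195R3.Avoid

/-!
# Closed tuples
-/

namespace Pool.Agent.H195R3

open Pool.Agent.H581R2 Filter Cardinal

/-- the tuple enumerates a set which is algebraically closed and closed under `f` -/
structure Closed (f : ℝ → ℝ) (v : ℕ → ℕ → ℝ) : Prop where
  alg : ∀ z ∈ acl (Set.range (st v)), z ∈ Set.range (st v)
  fn : ∀ i, ∃ j, ∀ᶠ n in (HF : Filter ℕ), f (v n i) = v n j

lemma acl_countable {A : Set RS} (hA : A.Countable) : (acl A).Countable := by
  have h := card_acl_le (A := A)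
  rw [max_eq_right (Cardinal.mk_le_aleph0_iff.2 hA.to_subtype)] at h
  exact Cardinal.mk_le_aleph0_iff.1 h

/-- countable closures -/
theorem exists_closed (f : ℝ → ℝ) {A : Set RS} (hA : A.Countable) :
    ∃ u : ℕ → ℕ → ℝ, Closed f u ∧ A ⊆ Set.range (st u) ∧ Function.Injective (st u) := by
  classical
  let F : RS → RS := Germ.map f
  let E : ℕ → Set RS := fun n => Nat.rec A (fun _ B => acl B ∪ F '' B) n
  have hE : ∀ n, E (n + 1) = acl (E n) ∪ F '' (E n) := fun n => rfl
  have hmono1 : ∀ n, E n ⊆ E (n + 1) := fun n => by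
    rw [hE]; exact subset_acl.trans Set.subset_union_left
  have hmono : Monotone E := monotone_nat_of_le_succ hmono1
  have hcount : ∀ n, (E n).Countable := by
    intro n
    induction n with
    | zero => exact hA
    | succ n ih => rw [hE]; exact (acl_countable ih).union (ih.image F)
  let T : Set RS := ⋃ n, E n
  have hT : T.Countable := Set.countable_iUnion hcount
  have hTacl : acl T ⊆ T := by
    intro z hz
    obtain ⟨I, hI, hIf, -, hzI⟩ := Matroid.exists_mem_finite_closure_of_mem_closure hz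
    have : ∃ n, I ⊆ E n := by
      have h1 : ∀ x : I, ∃ n, (x : RS) ∈ E n := fun x => Set.mem_iUnion.1 (hI x.2)
      choose g hg using h1
      have : Finite I := hIf.to_subtype
      obtain ⟨M, hM⟩ := Set.Finite.bddAbove (Set.finite_range g)
      exact ⟨M, fun x hx => hmono (hM ⟨⟨x, hx⟩, rfl⟩) (hg ⟨x, hx⟩)⟩
    obtain ⟨n, hn⟩ := this
    exact Set.mem_iUnion.2 ⟨n + 1, by rw [hE]; exact Or.inl (acl_mono hn hzI)⟩
  have hTF : ∀ z ∈ T, F z ∈ T := by
    intro z hz
    obtain ⟨n, hn⟩ := Set.mem_iUnion.1 hz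
    exact Set.mem_iUnion.2 ⟨n + 1, by rw [hE]; exact Or.inr ⟨z, hn, rfl⟩⟩
  have hinf : T.Infinite := by
    have h1 : Set.range (fun n : ℕ => (n : RS)) ⊆ T := by
      rintro _ ⟨n, rfl⟩
      apply hTacl
      rw [mem_acl]
      exact isAlgebraic_natCast n
    exact (Set.infinite_range_of_injective Nat.cast_injective).mono h1
  have : Countable T := hT.to_subtype
  have : Infinite T := hinf.to_subtype
  obtain ⟨hd⟩ := nonempty_denumerable T
  let e : ℕ ≃ T := (Denumerable.eqv T).symm
  have hrep : ∀ z : RS, ∃ b : ℕ → ℝ, (b : RS) = z := fun z => Quotient.exists_rep z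
  choose rep hrep using hrep
  let u : ℕ → ℕ → ℝ := fun n k => rep (e k) n
  have hst : ∀ k, st u k = (e k : RS) := fun k => hrep (e k)
  have hrange : Set.range (st u) = T := by
    ext z
    constructor
    · rintro ⟨k, rfl⟩
      rw [hst]
      exact (e k).2
    · intro hz
      refine ⟨e.symm ⟨z, hz⟩, ?_⟩
      rw [hst]
      simp
  refine ⟨u, ⟨?_, ?_⟩, ?_, ?_⟩
  · rw [hrange]
    exact hTacl
  · intro i
    have h1 : F (st u i) ∈ T := hTF _ (by rw [← hrange]; exact ⟨i, rfl⟩)
    rw [← hrange] at h1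
    obtain ⟨j, hj⟩ := h1
    exact ⟨j, coe_eq.1 hj.symm⟩
  · rw [hrange]
    exact Set.subset_iUnion E 0
  · intro k l hkl
    rw [hst, hst] at hkl
    exact e.injective (Subtype.ext hkl)

end Pool.Agent.H195R3
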