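import Pool.Agent.H195R3.Truth

/-!
# The example: definability, restrainedness, and a definable surjection onto the plane
-/

namespace Pool.Agent.H195R3

open Pool.Agent.H581R2 Filter Cardinal FirstOrder

lemma def_rel (f : ℝ → ℝ) {k : ℕ} (R : Lf.Relations k) {α : Type} (i : Fin k → α) :
    @Set.Definable ℝ (Set.univ : Set ℝ) Lf (str f) α
      {v | (str f).RelMap R (fun j => v (i j))} := by
  let _ := str f
  refine Set.Definable.mono (A := ∅) ?_ (Set.empty_subset _)
  rw [Set.empty_definable_iff]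
  refine ⟨R.formula fun j => Language.Term.var (i j), ?_⟩
  ext v
  simp [Language.Formula.realize_rel]

lemma def_add (f : ℝ → ℝ) {α : Type} (i j k : α) :
    @Set.Definable ℝ (Set.univ : Set ℝ) Lf (str f) α {v | v i + v j = v k} :=
  def_rel f Rels.add ![i, j, k]

lemma def_mul (f : ℝ → ℝ) {α : Type} (i j k : α) :
    @Set.Definable ℝ (Set.univ : Set ℝ) Lf (str f) α {v | v i * v j = v k} :=
  def_rel f Rels.mul ![i, j, k]

lemma def_le (f : ℝ → ℝ) {α : Type} (i j : α) :
    @Set.Definable ℝ (Set.univ : Set ℝ) Lf (str f) α {v | v i ≤ v j} :=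
  def_rel f Rels.le ![i, j]

lemma def_fn (f : ℝ → ℝ) {α : Type} (i j : α) :
    @Set.Definable ℝ (Set.univ : Set ℝ) Lf (str f) α {v | f (v i) = v j} :=
  def_rel f Rels.fn ![i, j]

lemma def_const (f : ℝ → ℝ) {α : Type} (i : α) (c : ℝ) :
    @Set.Definable ℝ (Set.univ : Set ℝ) Lf (str f) α {v | v i = c} := by
  let _ := str f
  have h := (Set.Definable.singleton_of_mem Lf (A := (Set.univ : Set ℝ)) (Set.mem_univ c))
  exact Set.Definable.preimage_comp (fun _ : Fin 1 => i) h

/-- the graph of `x ↦ (f x, f (x + 1))` is definable -/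
lemma def_graph (f : ℝ → ℝ) :
    @Set.Definable ℝ (Set.univ : Set ℝ) Lf (str f) (Fin 3)
      {v | f (v 0) = v 1 ∧ f (v 0 + 1) = v 2} := by
  let _ := str f
  have h1 := ((def_fn f (0 : Fin 5) 1).inter (def_fn f (3 : Fin 5) 2)).inter
    ((def_add f (0 : Fin 5) 4 3).inter (def_const f (4 : Fin 5) 1))
  have h2 := h1.image_comp (fun i : Fin 3 => (Fin.castLE (by omega) i : Fin 5))
  refine (congrArg (fun s => @Set.Definable ℝ (Set.univ : Set ℝ) Lf (str f) (Fin 3) s) ?_).mp h2
  ext v
  constructor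
  · rintro ⟨w, ⟨⟨h1, h2⟩, h3, h4⟩, rfl⟩
    simp only [Set.mem_ofPred_eq] at h1 h2 h3 h4
    simp only [Set.mem_ofPred_eq, Function.comp]
    refine ⟨h1, ?_⟩
    show f (w 0 + 1) = w 2
    rw [← h2, ← h3, h4]
  · rintro ⟨h1, h2⟩
    refine ⟨![v 0, v 1, v 2, v 0 + 1, 1], ⟨⟨?_, ?_⟩, ?_, ?_⟩, ?_⟩
    · exact h1
    · exact h2
    · rfl
    · rfl
    · funext i
      fin_cases i <;> rfl

/-- `x ↦ (f x, f (x + 1))` is onto the plane -/
theorem gen_surj {f : ℝ → ℝ} (hf : Generic f) (y1 y2 : ℝ) : ∃ x, f x = y1 ∧ f (x + 1) = y2 := by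
  classical
  let T : Task :=
    { Q := {MvPolynomial.X 1 - MvPolynomial.X 0 - 1}
      s := fun _ => 0
      N := {0, 1}
      w := fun k => if k = 2 then y1 else y2
      τ := fun k => if k = 0 then 2 else 3
      y := fun _ => 0 }
  obtain ⟨x, ⟨h1, -, -, h4⟩, h5⟩ := hf T (by
    intro S hS
    have hS' : #(S ∪ (fun z => z - 1) '' S : Set ℝ) < continuum := by
      refine (Cardinal.mk_union_le _ _).trans_lt (Cardinal.add_lt_of_lt aleph0_le_continuum hS ?_)
      exact Cardinal.mk_image_le.trans_lt hS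
    obtain ⟨a, ha⟩ : ∃ a, a ∉ (S ∪ (fun z => z - 1) '' S : Set ℝ) := by
      by_contra hcon
      push Not at hcon
      rw [Set.eq_univ_of_forall hcon, Cardinal.mk_univ, Cardinal.mk_real] at hS'
      exact lt_irrefl _ hS'
    have ha1 : a ∉ S := fun h => ha (Or.inl h)
    have ha2 : a + 1 ∉ S := fun h => ha (Or.inr ⟨a + 1, h, by ring⟩)
    refine ⟨fun k => if k = 0 then a else if k = 1 then a + 1 else T.w k, ?_, ?_, ?_, ?_⟩
    · intro k hk
      have hk' : k ≠ 0 ∧ k ≠ 1 := by
        constructor <;> rintro rfl <;> exact hk (by simp [T])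
      simp [hk'.1, hk'.2]
    · intro k hk
      have hk' : k = 0 ∨ k = 1 := by simpa [T] using hk
      rcases hk' with rfl | rfl
      · simpa using ha1
      · simpa using ha2
    · intro k hk l hl hkl
      have hk' : k = 0 ∨ k = 1 := by simpa [T] using hk
      have hl' : l = 0 ∨ l = 1 := by simpa [T] using hl
      rcases hk' with rfl | rfl <;> rcases hl' with rfl | rfl <;> simp at hkl ⊢
    · intro q hq
      have hq' : q = MvPolynomial.X 1 - MvPolynomial.X 0 - 1 := by simpa [T] using hq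
      subst hq'
      simp [T])
  refine ⟨x 0, ?_, ?_⟩
  · have := h5 0 (by simp [T])
    rw [this]
    have h2 := h1 2 (by simp [T])
    simpa [T] using h2
  · have h6 := h4 _ (Finset.mem_singleton_self _)
    simp only [T, map_sub, MvPolynomial.aeval_X, map_one, sign_eq_zero_iff] at h6
    have h7 : x 0 + 1 = x 1 := by linarith
    rw [h7, h5 1 (by simp [T])]
    have h2 := h1 3 (by simp [T])
    simpa [T] using h2

/-- the expansion is restrained: definable images of discrete sets are even finite -/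
theorem restrained {f : ℝ → ℝ} (hf : Generic f) (n : ℕ) (D : Set (Fin n → ℝ))
    (g : (Fin n → ℝ) → ℝ) (hD : DiscreteTopology D)
    (hg : @Set.Definable ℝ (Set.univ : Set ℝ) Lf (str f) (Fin (n + 1))
      {v : Fin (n + 1) → ℝ | (fun i : Fin n => v (Fin.castSucc i)) ∈ D ∧
              g (fun i : Fin n => v (Fin.castSucc i)) = v (Fin.last n)}) :
    (g '' D).Finite := by
  let _ := str f
  refine finite_of_countable hf _ ?_ ?_
  · have h1 := hg.image_comp (fun _ : Fin 1 => Fin.last n)
    refine (congrArg (fun s => @Set.Definable ℝ (Set.univ : Set ℝ) Lf (str f) (Fin 1) s) ?_).mp h1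
    ext v
    constructor
    · rintro ⟨w, ⟨h1, h2⟩, rfl⟩
      exact ⟨_, h1, h2⟩
    · rintro ⟨x, hx, hxv⟩
      refine ⟨Fin.snoc x (v 0), ?_, ?_⟩
      · simp only [Set.mem_ofPred_eq, Fin.snoc_castSucc, Fin.snoc_last]
        exact ⟨hx, hxv⟩
      · funext i
        have : i = 0 := Subsingleton.elim _ _
        subst this
        simp
  · have : Countable D := TopologicalSpace.separableSpace_iff_countable.1 inferInstance
    exact (Set.to_countable D).image g

lemma finite_nowhereDense {Y : Set ℝ} (h : Y.Finite) : IsNowhereDense Y := by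
  rw [IsNowhereDense, h.isClosed.closure_eq]
  exact interior_eq_empty_iff_dense_compl.2 (h.countable.dense_compl ℝ)

end Pool.Agent.H195R3
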