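import Pool.Agent.H195R3.Closed

/-!
# The back and forth system
-/

namespace Pool.Agent.H195R3

open Pool.Agent.H581R2 Filter Cardinal

/-- the property of the generic function -/
def Generic (f : ℝ → ℝ) : Prop := ∀ T : Task, Large T →
  ∃ x, Good T (Set.range T.y) x ∧ ∀ k ∈ T.N, f (x k) = x (T.τ k)

/-- the back and forth system -/
structure BF (f : ℝ → ℝ) (v w : ℕ → ℕ → ℝ) : Prop where
  ty : ST v w
  clv : Closed f v
  clw : Closed f w
  fc : ∀ i j, (∀ᶠ n in (HF : Filter ℕ), f (v n i) = v n j) ↔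
    (∀ᶠ n in (HF : Filter ℕ), f (w n i) = w n j)

lemma BF.symm {f : ℝ → ℝ} {v w : ℕ → ℕ → ℝ} (h : BF f v w) : BF f w v :=
  ⟨h.ty.symm, h.clw, h.clv, fun i j => (h.fc i j).symm⟩

lemma BF.refl {f : ℝ → ℝ} {v : ℕ → ℕ → ℝ} (h : Closed f v) : BF f v v :=
  ⟨ST.refl v, h, h, fun _ _ => Iff.rfl⟩

lemma aeval_eventually_eq {ι : Type} {a b : ℕ → ι → ℝ} (h : ∀ i, st a i = st b i)
    (q : MvPolynomial ι ℚ) : ∀ᶠ n in (HF : Filter ℕ),
      MvPolynomial.aeval (a n) q = MvPolynomial.aeval (b n) q := by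
  have h1 : st a = st b := funext h
  have h2 := aeval_st a q
  rw [h1, aeval_st b q] at h2
  exact (coe_eq.1 h2).mono fun n hn => hn.symm

lemma aeval_congr_vars {z z' : ℕ → ℝ} {q : MvPolynomial ℕ ℚ} (h : ∀ i ∈ q.vars, z i = z' i) :
    MvPolynomial.aeval z q = MvPolynomial.aeval z' q :=
  MvPolynomial.eval₂Hom_congr' rfl (fun i hi _ => h i hi) rfl

lemma Closed.zero_mem {f : ℝ → ℝ} {v : ℕ → ℕ → ℝ} (h : Closed f v) :
    (0 : RS) ∈ Set.range (st v) := h.alg _ zero_mem_acl

/-- the image of a closed tuple under a sign preserving map is algebraically closed -/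
lemma closed_of_ST {u w : ℕ → ℕ → ℝ} (h : ST u w)
    (hu : ∀ z ∈ acl (Set.range (st u)), z ∈ Set.range (st u)) :
    ∀ z ∈ acl (Set.range (st w)), z ∈ Set.range (st w) := by
  intro z hz
  obtain ⟨b, rfl⟩ : ∃ b : ℕ → ℝ, (b : RS) = z := Quotient.exists_rep z
  obtain ⟨t, ht⟩ := one_point h.symm b
  obtain ⟨k, hk⟩ := hu _ (acl_transfer ht hz)
  refine ⟨k, ?_⟩
  have h1 := ht (MvPolynomial.X none - MvPolynomial.X (some k))
  refine coe_eq.2 ?_
  filter_upwards [h1, coe_eq.1 hk] with n h1 h2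
  simp only [map_sub, MvPolynomial.aeval_X, ext_none, ext_some] at h1
  rw [h2, sub_self, sign_zero, sign_eq_zero_iff] at h1
  linarith

theorem large_tasks {f : ℝ → ℝ} {v w : ℕ → ℕ → ℝ} (h : BF f v w)
    {u : ℕ → ℕ → ℝ} (hinj : Function.Injective (st u))
    (j : ℕ → ℕ) (hj : ∀ i, st u (j i) = st v i)
    (O : Set ℕ) (hO : O = {k | st u k ∈ Set.range (st v)})
    (ω : ℕ → ℕ) (hω : ∀ k ∈ O, st v (ω k) = st u k)
    (s : MvPolynomial ℕ ℚ → SignType)
    (hs : ∀ q, ∀ᶠ n in (HF : Filter ℕ), SignType.sign (MvPolynomial.aeval (u n) q) = s q)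
    (Q : Finset (MvPolynomial ℕ ℚ)) (N : Finset ℕ) (hN : ∀ k ∈ N, k ∉ O)
    (hQ : ∀ q ∈ Q, ∀ i ∈ q.vars, i ∈ O ∨ i ∈ N) (τ : ℕ → ℕ) (y : ℕ → ℝ) :
    ∀ᶠ n in (HF : Filter ℕ),
      Large ⟨Q, s, N, mask O (fun n k => w n (ω k)) n, τ, y⟩ := by
  classical
  set W0 : ℕ → ℕ → ℝ := fun n k => w n (ω k) with hW0
  -- the sign types agree on the old indices
  have hST0 : ST (mask O u) (mask O W0) := by
    intro q
    let q' : MvPolynomial ℕ ℚ := MvPolynomial.bind₁
      (fun k => if k ∈ O then MvPolynomial.X (ω k) else 0) q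
    have e1 : ∀ (a : ℕ → ℕ → ℝ) (n : ℕ), MvPolynomial.aeval (a n) q' =
        MvPolynomial.aeval (mask O (fun n k => a n (ω k)) n) q := by
      intro a n
      rw [MvPolynomial.aeval_bind₁]
      congr 2
      funext k
      by_cases hk : k ∈ O
      · rw [if_pos hk, mask_of_mem hk, MvPolynomial.aeval_X]
      · rw [if_neg hk, mask_of_notMem hk, map_zero]
    have e2 : ∀ i, st (mask O u) i = st (mask O (fun n k => v n (ω k))) i := by
      intro i
      by_cases hi : i ∈ O
      · refine coe_eq.2 ?_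
        filter_upwards [coe_eq.1 (hω i hi)] with n hn
        rw [mask_of_mem hi, mask_of_mem hi]
        exact hn.symm
      · refine coe_eq.2 (Eventually.of_forall fun n => ?_)
        show mask O u n i = mask O _ n i
        rw [mask_of_notMem hi, mask_of_notMem hi]
    filter_upwards [h.ty q', aeval_eventually_eq e2 q] with n h1 h2
    rw [h2, ← e1 v n, h1, e1 w n]
  by_contra hcon
  have hcon' := Ultrafilter.eventually_not.2 hcon
  have hex : ∀ n, ∃ S : Set ℝ, #S < continuum ∧ (0 : ℝ) ∈ S ∧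
      (¬ Large ⟨Q, s, N, mask O W0 n, τ, y⟩ → ¬ ∃ x, Good ⟨Q, s, N, mask O W0 n, τ, y⟩ S x) := by
    intro n
    by_cases hL : Large ⟨Q, s, N, mask O W0 n, τ, y⟩
    · refine ⟨{0}, ?_, rfl, fun hn => absurd hL hn⟩
      rw [Cardinal.mk_singleton]
      exact Cardinal.one_lt_aleph0.trans aleph0_lt_continuum
    · have hL' := hL
      unfold Large at hL'
      push Not at hL'
      obtain ⟨S, hS1, hS2⟩ := hL'
      refine ⟨insert 0 S, ?_, Set.mem_insert _ _, fun _ => ?_⟩
      · refine (Cardinal.mk_insert_le).trans_lt ?_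
        exact Cardinal.add_lt_of_lt aleph0_le_continuum hS1
          (Cardinal.one_lt_aleph0.trans aleph0_lt_continuum)
      · rintro ⟨x, h1, h2, h3, h4⟩
        exact hS2 x ⟨h1, fun k hk hmem => h2 k hk (Set.mem_insert_of_mem _ hmem), h3, h4⟩
  choose S hS1 hS2 hS3 using hex
  obtain ⟨x, hx1, hx2, hx3⟩ := avoid u W0 O hST0 S hS1 hS2 N hN
  -- the restriction map keeps the coordinates
  have hmask : ∀ k ∈ O ∪ (N : Set ℕ), st (mask (O ∪ (N : Set ℕ)) u) k = st u k := fun k hk =>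
    coe_eq.2 (Eventually.of_forall fun n => mask_of_mem hk)
  have hxinj : ∀ k ∈ O ∪ (N : Set ℕ), ∀ l ∈ O ∪ (N : Set ℕ), st x k = st x l → k = l := by
    intro k hk l hl hkl
    have h1 := st_eq_of_ST hx2 hkl
    rw [hmask k hk, hmask l hl] at h1
    exact hinj h1
  have havoid : ∀ k ∈ N, ∀ᶠ n in (HF : Filter ℕ), x n k ∉ S n := by
    intro k hk
    rw [← Filter.not_frequently]
    intro hf
    have hf' : ∀ᶠ n in (HF : Filter ℕ), x n k ∈ S n := Ultrafilter.frequently_iff_eventually.1 hf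
    have h1 : st x k ∈ star S := ⟨fun n => x n k, hf', rfl⟩
    have h2 := hx3 (st x k) (subset_acl ⟨k, rfl⟩) (subset_acl (Or.inr h1))
    have h3 : Set.range (st (mask O W0)) ⊆ Set.range (st w) := by
      rintro z ⟨i, rfl⟩
      by_cases hi : i ∈ O
      · refine ⟨ω i, ?_⟩
        refine coe_eq.2 (Eventually.of_forall fun n => ?_)
        show w n (ω i) = mask O W0 n i
        rw [mask_of_mem hi]
      · have : st (mask O W0) i = 0 :=
          coe_eq.2 (Eventually.of_forall fun n => mask_of_notMem hi)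
        rw [this]
        exact h.clw.zero_mem
    obtain ⟨i, hi⟩ := h.clw.alg _ (acl_mono h3 h2)
    have hlO : j i ∈ O := by
      rw [hO]
      exact ⟨i, (hj i).symm⟩
    have h4 : st x (j i) = st w i := by
      have h5 : j i ∉ N := fun hmem => hN _ hmem hlO
      have h6 : st x (j i) = st w (ω (j i)) := by
        refine coe_eq.2 (Eventually.of_forall fun n => ?_)
        show x n (j i) = w n (ω (j i))
        rw [hx1 n _ h5, mask_of_mem hlO]
      rw [h6]
      refine st_eq_of_ST h.ty.symm ?_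
      rw [hω _ hlO, hj]
    have h7 := hxinj k (Or.inr hk) (j i) (Or.inl hlO) (by rw [h4, hi])
    exact hN k hk (h7 ▸ hlO)
  have hpair : ∀ k ∈ N, ∀ l ∈ N, ∀ᶠ n in (HF : Filter ℕ), x n k = x n l → k = l := by
    intro k hk l hl
    by_cases hkl : k = l
    · exact Eventually.of_forall fun _ _ => hkl
    · have h1 : ¬ ∀ᶠ n in (HF : Filter ℕ), x n k = x n l := fun h1 =>
        hkl (hxinj k (Or.inr hk) l (Or.inr hl) (coe_eq.2 h1))
      filter_upwards [Ultrafilter.eventually_not.2 h1] with n hn h2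
      exact absurd h2 hn
  have hsign : ∀ q ∈ Q, ∀ᶠ n in (HF : Filter ℕ),
      SignType.sign (MvPolynomial.aeval (x n) q) = s q := by
    intro q hq
    filter_upwards [hx2 q, hs q] with n h1 h2
    rw [← h1, ← h2]
    congr 1
    refine aeval_congr_vars fun i hi => mask_of_mem ?_
    rcases hQ q hq i hi with h | h
    · exact Or.inl h
    · exact Or.inr h
  obtain ⟨n, h1, h2, h3, h4⟩ := (hcon'.and (((Filter.eventually_all_finset N).2 havoid).and
    (((Filter.eventually_all_finset N).2 fun k hk => (Filter.eventually_all_finset N).2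
      (hpair k hk)).and ((Filter.eventually_all_finset Q).2 hsign)))).exists
  exact hS3 n h1 ⟨x n, hx1 n, h2, fun k hk l hl hkl => h3 k hk l hl hkl, h4⟩

end Pool.Agent.H195R3
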