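import Pool.Agent.H195R3.Example

/-!
# The expansion has no dimension function
-/

namespace Pool.Agent.H195R3

open Pool.Agent.H581R2 Filter Cardinal FirstOrder

theorem no_dimension {f : ℝ → ℝ} (hf : Generic f)
    (d : (n : ℕ) → Set (Fin n → ℝ) → WithBot ℕ)
    (hd1 : ∀ (n : ℕ) (A : Set (Fin n → ℝ)),
      @Set.Definable ℝ (Set.univ : Set ℝ) Lf (str f) (Fin n) A → (d n A = ⊥ ↔ A = ∅))
    (hd1a : ∀ a : ℝ, d 1 ({fun _ => a} : Set (Fin 1 → ℝ)) = 0)
    (hd1K : d 1 (Set.univ : Set (Fin 1 → ℝ)) = 1)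
    (hd2 : ∀ (n : ℕ) (A B : Set (Fin n → ℝ)),
      @Set.Definable ℝ (Set.univ : Set ℝ) Lf (str f) (Fin n) A →
      @Set.Definable ℝ (Set.univ : Set ℝ) Lf (str f) (Fin n) B →
      d n (A ∪ B) = max (d n A) (d n B))
    (hd3 : ∀ (n : ℕ) (σ : Equiv.Perm (Fin n)) (A : Set (Fin n → ℝ)),
      @Set.Definable ℝ (Set.univ : Set ℝ) Lf (str f) (Fin n) A →
      d n ((fun x : Fin n → ℝ => x ∘ σ) ⁻¹' A) = d n A)
    (hd4 : ∀ (n : ℕ) (C : Set (Fin (n + 1) → ℝ)),
      @Set.Definable ℝ (Set.univ : Set ℝ) Lf (str f) (Fin (n + 1)) C →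
      ∀ i : ℕ, i ≤ 1 →
        @Set.Definable ℝ (Set.univ : Set ℝ) Lf (str f) (Fin n)
          {x : Fin n → ℝ | d 1 {w : Fin 1 → ℝ | ∃ z ∈ C,
              (fun j : Fin n => z (Fin.castSucc j)) = x ∧ z (Fin.last n) = w 0} = (i : WithBot ℕ)} ∧
        d (n + 1) (C ∩ {z : Fin (n + 1) → ℝ | d 1 {w : Fin 1 → ℝ | ∃ y ∈ C,
              (fun j : Fin n => y (Fin.castSucc j)) = (fun j : Fin n => z (Fin.castSucc j)) ∧
              y (Fin.last n) = w 0} = (i : WithBot ℕ)})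
          = d n {x : Fin n → ℝ | d 1 {w : Fin 1 → ℝ | ∃ z ∈ C,
              (fun j : Fin n => z (Fin.castSucc j)) = x ∧ z (Fin.last n) = w 0} = (i : WithBot ℕ)}
            + (i : WithBot ℕ)) : False := by
  let _ := str f
  -- fibres
  let fib : (n : ℕ) → Set (Fin (n + 1) → ℝ) → (Fin n → ℝ) → Set (Fin 1 → ℝ) := fun n C x =>
    {w | ∃ z ∈ C, (fun j : Fin n => z (Fin.castSucc j)) = x ∧ z (Fin.last n) = w 0}
  have hd4' : ∀ (n : ℕ) (C : Set (Fin (n + 1) → ℝ)),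
      (Set.univ : Set ℝ).Definable Lf C → ∀ i : ℕ, i ≤ 1 →
        (Set.univ : Set ℝ).Definable Lf {x : Fin n → ℝ | d 1 (fib n C x) = (i : WithBot ℕ)} ∧
        d (n + 1) (C ∩ {z | d 1 (fib n C fun j => z (Fin.castSucc j)) = (i : WithBot ℕ)}) =
          d n {x : Fin n → ℝ | d 1 (fib n C x) = (i : WithBot ℕ)} + (i : WithBot ℕ) := hd4
  clear hd4
  -- monotonicity
  have hmono : ∀ (n : ℕ) (A B : Set (Fin n → ℝ)), (Set.univ : Set ℝ).Definable Lf A →
      (Set.univ : Set ℝ).Definable Lf B → A ⊆ B → d n A ≤ d n B := by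
    intro n A B hA hB hAB
    have h := hd2 n A B hA hB
    rw [Set.union_eq_self_of_subset_left hAB] at h
    rw [h]
    exact le_max_left _ _
  -- graphs have dimension one
  have hgr1 : d 2 {v : Fin 2 → ℝ | f (v 0) = v 1} = 1 := by
    have hdef := def_fn f (0 : Fin 2) 1
    have hfib : ∀ x : Fin 1 → ℝ, fib 1 {v : Fin 2 → ℝ | f (v 0) = v 1} x = {fun _ => f (x 0)} := by
      intro x
      ext w
      constructor
      · rintro ⟨z, hz, hx, hw⟩
        have h0 : z 0 = x 0 := congrFun hx 0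
        have h1 : f (z 0) = z 1 := hz
        have h2 : z 1 = w 0 := hw
        rw [Set.mem_singleton_iff]
        funext i
        have : i = 0 := Subsingleton.elim _ _
        subst this
        rw [← h2, ← h1, h0]
      · intro hw
        rw [Set.mem_singleton_iff] at hw
        subst hw
        refine ⟨![x 0, f (x 0)], rfl, ?_, rfl⟩
        funext i
        have : i = 0 := Subsingleton.elim _ _
        subst this
        rfl
    have h := (hd4' 1 _ hdef 0 (by omega)).2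
    have e1 : {x : Fin 1 → ℝ | d 1 (fib 1 {v : Fin 2 → ℝ | f (v 0) = v 1} x) =
        ((0 : ℕ) : WithBot ℕ)} = Set.univ := by
      refine Set.eq_univ_of_forall fun x => ?_
      show d 1 (fib 1 {v : Fin 2 → ℝ | f (v 0) = v 1} x) = ((0 : ℕ) : WithBot ℕ)
      rw [hfib x, hd1a]
      rfl
    have e2 : {v : Fin 2 → ℝ | f (v 0) = v 1} ∩
        {z | d 1 (fib 1 {v : Fin 2 → ℝ | f (v 0) = v 1} fun j => z (Fin.castSucc j)) =
          ((0 : ℕ) : WithBot ℕ)} = {v : Fin 2 → ℝ | f (v 0) = v 1} := by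
      refine Set.inter_eq_left.2 fun z _ => ?_
      show d 1 (fib 1 {v : Fin 2 → ℝ | f (v 0) = v 1} fun j => z (Fin.castSucc j)) =
        ((0 : ℕ) : WithBot ℕ)
      rw [hfib, hd1a]
      rfl
    rw [e1, e2, hd1K] at h
    rw [h]
    rfl
  set Γ : Set (Fin 3 → ℝ) := {v | f (v 0) = v 1 ∧ f (v 0 + 1) = v 2} with hΓ
  have hΓdef : (Set.univ : Set ℝ).Definable Lf Γ := def_graph f
  have hgr2 : d 3 Γ = 1 := by
    have hfib : ∀ x : Fin 2 → ℝ, f (x 0) = x 1 → fib 2 Γ x = {fun _ => f (x 0 + 1)} := by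
      intro x hx1
      ext w
      constructor
      · rintro ⟨z, ⟨hz1, hz2⟩, hx, hw⟩
        have h0 : z 0 = x 0 := congrFun hx 0
        have h2 : z 2 = w 0 := hw
        rw [Set.mem_singleton_iff]
        funext i
        have : i = 0 := Subsingleton.elim _ _
        subst this
        rw [← h2, ← hz2, h0]
      · intro hw
        rw [Set.mem_singleton_iff] at hw
        subst hw
        refine ⟨![x 0, x 1, f (x 0 + 1)], ⟨hx1, rfl⟩, ?_, rfl⟩
        funext i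
        fin_cases i <;> rfl
    have hfib' : ∀ x : Fin 2 → ℝ, f (x 0) ≠ x 1 → fib 2 Γ x = ∅ := by
      intro x hx1
      refine Set.eq_empty_of_forall_notMem ?_
      rintro w ⟨z, ⟨hz1, hz2⟩, hx, hw⟩
      have h0 : z 0 = x 0 := congrFun hx 0
      have h1 : z 1 = x 1 := congrFun hx 1
      exact hx1 (by rw [← h0, ← h1, hz1])
    have hbot : d 1 (∅ : Set (Fin 1 → ℝ)) = ⊥ :=
      (hd1 1 ∅ Set.definable_empty).2 rfl
    have h := (hd4' 2 _ hΓdef 0 (by omega)).2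
    have e1 : {x : Fin 2 → ℝ | d 1 (fib 2 Γ x) = ((0 : ℕ) : WithBot ℕ)} =
        {v : Fin 2 → ℝ | f (v 0) = v 1} := by
      ext x
      simp only [Set.mem_ofPred_eq]
      by_cases hx : f (x 0) = x 1
      · rw [hfib x hx, hd1a]
        exact ⟨fun _ => hx, fun _ => rfl⟩
      · rw [hfib' x hx, hbot]
        exact ⟨fun h => absurd h.symm (WithBot.coe_ne_bot), fun h => absurd h hx⟩
    have e2 : Γ ∩ {z | d 1 (fib 2 Γ fun j => z (Fin.castSucc j)) = ((0 : ℕ) : WithBot ℕ)} = Γ := by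
      refine Set.inter_eq_left.2 fun z hz => ?_
      show d 1 (fib 2 Γ fun j => z (Fin.castSucc j)) = ((0 : ℕ) : WithBot ℕ)
      rw [hfib _ hz.1, hd1a]
      rfl
    rw [e1, e2, hgr1] at h
    rw [h]
    rfl
  -- the plane
  have hplane : d 2 (Set.univ : Set (Fin 2 → ℝ)) = 2 := by
    have h := (hd4' 1 Set.univ Set.definable_univ 1 le_rfl).2
    have hfib : ∀ x : Fin 1 → ℝ, fib 1 Set.univ x = Set.univ := by
      intro x
      refine Set.eq_univ_of_forall fun w => ⟨![x 0, w 0], trivial, ?_, rfl⟩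
      funext i
      have : i = 0 := Subsingleton.elim _ _
      subst this
      rfl
    have e1 : {x : Fin 1 → ℝ | d 1 (fib 1 Set.univ x) = ((1 : ℕ) : WithBot ℕ)} = Set.univ := by
      refine Set.eq_univ_of_forall fun x => ?_
      show d 1 (fib 1 Set.univ x) = ((1 : ℕ) : WithBot ℕ)
      rw [hfib x, hd1K]
      rfl
    have e2 : (Set.univ : Set (Fin 2 → ℝ)) ∩
        {z | d 1 (fib 1 Set.univ fun j => z (Fin.castSucc j)) = ((1 : ℕ) : WithBot ℕ)} =
          Set.univ := by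
      rw [Set.univ_inter]
      refine Set.eq_univ_of_forall fun x => ?_
      show d 1 (fib 1 Set.univ fun j => x (Fin.castSucc j)) = ((1 : ℕ) : WithBot ℕ)
      rw [hfib, hd1K]
      rfl
    rw [e1, e2, hd1K] at h
    rw [h]
    rfl
  -- the permuted graph
  let σ : Equiv.Perm (Fin 3) := finRotate 3 * finRotate 3
  have hσ0 : σ 0 = 2 := by decide
  have hσ1 : σ 1 = 0 := by decide
  have hσ2 : σ 2 = 1 := by decide
  set Δ : Set (Fin 3 → ℝ) := (fun x : Fin 3 → ℝ => x ∘ σ) ⁻¹' Γ with hΔ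
  have hΔdef : (Set.univ : Set ℝ).Definable Lf Δ := hΓdef.preimage_comp σ
  have hdΔ : d 3 Δ = 1 := by rw [hΔ, hd3 3 σ Γ hΓdef, hgr2]
  have hmemΔ : ∀ v : Fin 3 → ℝ, v ∈ Δ ↔ f (v 2) = v 0 ∧ f (v 2 + 1) = v 1 := by
    intro v
    show (f (v (σ 0)) = v (σ 1) ∧ f (v (σ 0) + 1) = v (σ 2)) ↔ _
    rw [hσ0, hσ1, hσ2]
  -- the fibres of the permuted graph are nonempty
  have hcases : ∀ x : Fin 2 → ℝ, d 1 (fib 2 Δ x) = ((0 : ℕ) : WithBot ℕ) ∨
      d 1 (fib 2 Δ x) = ((1 : ℕ) : WithBot ℕ) := by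
    intro x
    have hdef : (Set.univ : Set ℝ).Definable Lf (fib 2 Δ x) := by
      have h1 := (hΔdef.inter ((def_const f (0 : Fin 3) (x 0)).inter
        (def_const f (1 : Fin 3) (x 1)))).image_comp (fun _ : Fin 1 => (2 : Fin 3))
      refine (congrArg (fun s => @Set.Definable ℝ (Set.univ : Set ℝ) Lf (str f) (Fin 1) s)
        ?_).mp h1
      ext w
      constructor
      · rintro ⟨z, ⟨hz1, hz2, hz3⟩, rfl⟩
        refine ⟨z, hz1, ?_, rfl⟩
        funext i
        fin_cases i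
        · exact hz2
        · exact hz3
      · rintro ⟨z, hz, hx, hw⟩
        refine ⟨z, ⟨hz, congrFun hx 0, congrFun hx 1⟩, ?_⟩
        funext i
        have : i = 0 := Subsingleton.elim _ _
        subst this
        exact hw
    have hne : (fib 2 Δ x) ≠ ∅ := by
      obtain ⟨t, ht1, ht2⟩ := gen_surj hf (x 0) (x 1)
      have : (fun _ => t : Fin 1 → ℝ) ∈ fib 2 Δ x := by
        refine ⟨![x 0, x 1, t], (hmemΔ _).2 ⟨ht1, ht2⟩, ?_, rfl⟩
        funext i
        fin_cases i <;> rfl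
      exact fun h => by rw [h] at this; exact this
    have hle : d 1 (fib 2 Δ x) ≤ 1 := by
      rw [← hd1K]
      exact hmono 1 _ _ hdef Set.definable_univ (Set.subset_univ _)
    have hnb : d 1 (fib 2 Δ x) ≠ ⊥ := fun h => hne ((hd1 1 _ hdef).1 h)
    obtain ⟨m, hm⟩ := WithBot.ne_bot_iff_exists.1 hnb
    rw [← hm] at hle ⊢
    have : m ≤ 1 := WithBot.coe_le_coe.1 hle
    interval_cases m
    · exact Or.inl rfl
    · exact Or.inr rfl
  have hA := hd4' 2 Δ hΔdef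
  have hunion : {x : Fin 2 → ℝ | d 1 (fib 2 Δ x) = ((0 : ℕ) : WithBot ℕ)} ∪
      {x : Fin 2 → ℝ | d 1 (fib 2 Δ x) = ((1 : ℕ) : WithBot ℕ)} = Set.univ :=
    Set.eq_univ_of_forall fun x => hcases x
  have hmax := hd2 2 _ _ (hA 0 (by omega)).1 (hA 1 le_rfl).1
  rw [hunion, hplane] at hmax
  have hbound : ∀ i : ℕ, i ≤ 1 →
      d 2 {x : Fin 2 → ℝ | d 1 (fib 2 Δ x) = (i : WithBot ℕ)} + (i : WithBot ℕ) ≤ 1 := by
    intro i hi
    rw [← (hA i hi).2, ← hdΔ]
    refine hmono 3 _ _ ?_ hΔdef Set.inter_subset_left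
    exact hΔdef.inter ((hA i hi).1.preimage_comp (Fin.castSucc : Fin 2 → Fin 3))
  have h0 := hbound 0 (by omega)
  have h1 := hbound 1 le_rfl
  rcases le_total (d 2 {x : Fin 2 → ℝ | d 1 (fib 2 Δ x) = ((0 : ℕ) : WithBot ℕ)})
    (d 2 {x : Fin 2 → ℝ | d 1 (fib 2 Δ x) = ((1 : ℕ) : WithBot ℕ)}) with h | h
  · rw [max_eq_right h] at hmax
    rw [← hmax] at h1
    exact absurd h1 (by decide)
  · rw [max_eq_left h] at hmax
    rw [← hmax] at h0
    exact absurd h0 (by decide)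

end Pool.Agent.H195R3
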