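import Pool.Agent.H581R2.QE

/-!
# Nonstandard tuples of reals: sign types, saturation and extension of sign preserving maps
-/

namespace Pool.Agent.H195R3

open Pool.Agent.H581R2 Filter Cardinal

/-- a nonprincipal ultrafilter on the natural numbers -/
noncomputable abbrev HF : Ultrafilter ℕ := hyperfilter ℕ

variable {ι : Type}

/-- two nonstandard tuples have the same sign type over the rationals -/
def ST (v w : ℕ → ι → ℝ) : Prop :=
  ∀ q : MvPolynomial ι ℚ, ∀ᶠ n in (HF : Filter ℕ),
    SignType.sign (MvPolynomial.aeval (v n) q) = SignType.sign (MvPolynomial.aeval (w n) q)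

lemma ST.refl (v : ℕ → ι → ℝ) : ST v v := fun _ => Eventually.of_forall fun _ => rfl

lemma ST.symm {v w : ℕ → ι → ℝ} (h : ST v w) : ST w v := fun q => (h q).mono fun _ h => h.symm

theorem exists_lim {α : Type*} [Finite α] (g : ℕ → α) : ∃ s, ∀ᶠ n in (HF : Filter ℕ), g n = s := by
  by_contra hcon
  have h1 : ∀ s, ∀ᶠ n in (HF : Filter ℕ), g n ≠ s := fun s =>
    Ultrafilter.eventually_not.2 fun h => hcon ⟨s, h⟩
  have h2 := eventually_all.2 h1
  obtain ⟨n, hn⟩ := h2.exists
  exact hn (g n) rfl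

theorem ST.sap {v w : ℕ → ι → ℝ} (h : ST v w) {p : (ι → ℝ) → Prop} (hp : SAP p)
    (hv : ∀ᶠ n in (HF : Filter ℕ), p (v n)) : ∀ᶠ n in (HF : Filter ℕ), p (w n) := by
  obtain ⟨Q, hQ⟩ := SA.iff hp
  have h1 : ∀ᶠ n in (HF : Filter ℕ), ∀ q ∈ Q, SignType.sign (MvPolynomial.aeval (v n) q) =
      SignType.sign (MvPolynomial.aeval (w n) q) :=
    (Filter.eventually_all_finset Q).2 fun q _ => h q
  filter_upwards [h1, hv] with n h1 h2
  exact (hQ _ _ h1).1 h2

/-- countable saturation -/
theorem sat {W : Type} [Nonempty W] (Φ : ℕ → ℕ → Set W)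
    (h : ∀ k, ∀ᶠ n in (HF : Filter ℕ), ∃ w, ∀ j ≤ k, w ∈ Φ j n) :
    ∃ w : ℕ → W, ∀ j, ∀ᶠ n in (HF : Filter ℕ), w n ∈ Φ j n := by
  classical
  let P : ℕ → ℕ → Prop := fun n k => ∃ w, ∀ j ≤ k, w ∈ Φ j n
  have hex : ∀ n, ∃ w : W, ∀ k ≤ n, P n k → ∀ j ≤ k, w ∈ Φ j n := by
    intro n
    by_cases h0 : ∃ k ≤ n, P n k
    · have hK : P n (Nat.findGreatest (P n) n) := by
        obtain ⟨k, hk, hP⟩ := h0
        exact Nat.findGreatest_spec hk hP
      obtain ⟨w, hw⟩ := hK
      exact ⟨w, fun k hk hP j hj => hw j (hj.trans (Nat.le_findGreatest hk hP))⟩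
    · obtain ⟨w⟩ := (inferInstance : Nonempty W)
      exact ⟨w, fun k hk hP => absurd ⟨k, hk, hP⟩ h0⟩
  choose w hw using hex
  refine ⟨w, fun j => ?_⟩
  have h1 : ∀ᶠ n in (HF : Filter ℕ), j ≤ n :=
    (eventually_ge_atTop j).filter_mono Nat.hyperfilter_le_atTop
  filter_upwards [h j, h1] with n hn hjn
  exact hw n j hjn hn j le_rfl

instance mvPoly_countable {σ : Type} [Countable σ] : Countable (MvPolynomial σ ℚ) := by
  rw [← Cardinal.mk_le_aleph0_iff]
  refine MvPolynomial.cardinalMk_le_max.trans ?_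
  simp

/-- extension of sign preserving maps by one point -/
theorem one_point [Countable ι] {v w : ℕ → ι → ℝ} (h : ST v w) (b : ℕ → ℝ) :
    ∃ t : ℕ → ℝ, ST (fun n => ext (b n) (v n)) (fun n => ext (t n) (w n)) := by
  classical
  obtain ⟨q, hq⟩ := exists_surjective_nat (MvPolynomial (Option ι) ℚ)
  have hs : ∀ j, ∃ s, ∀ᶠ n in (HF : Filter ℕ),
      SignType.sign (MvPolynomial.aeval (ext (b n) (v n)) (q j)) = s := fun j => exists_lim _
  choose s hs using hs
  obtain ⟨t, ht⟩ := sat (W := ℝ)
    (fun j n => {t | SignType.sign (MvPolynomial.aeval (ext t (w n)) (q j)) = s j}) (by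
      intro k
      have hp : SAP (fun z : Option ι → ℝ => ∀ j ∈ Finset.range (k + 1),
          SignType.sign (MvPolynomial.aeval z (q j)) = s j) :=
        SAP.forall_mem _ fun j _ => SAP.sign_eq (PF.aeval (q j)) _
      have h1 := h.sap (SAP.exists_real hp) (by
        filter_upwards [(Filter.eventually_all_finset (Finset.range (k + 1))).2
          fun j _ => hs j] with n hn
        exact ⟨b n, hn⟩)
      filter_upwards [h1] with n hn
      obtain ⟨t, ht⟩ := hn
      exact ⟨t, fun j hj => ht j (Finset.mem_range.2 (by omega))⟩)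
  refine ⟨t, fun q' => ?_⟩
  obtain ⟨j, rfl⟩ := hq q'
  filter_upwards [ht j, hs j] with n h1 h2
  exact h2.trans h1.symm

/-- containing an interval is a semialgebraic condition -/
lemma SAP.interval {p : (Option ι → ℝ) → Prop} (hp : SAP p) :
    SAP (fun z : ι → ℝ => ∃ t1 t2 : ℝ, t1 < t2 ∧ ∀ t, t1 < t → t < t2 → p (ext t z)) := by
  have h3 : SAP (fun u : Option (Option (Option ι)) → ℝ =>
      u (some (some none)) < u none ∧ u none < u (some none) ∧
      ¬ p (ext (u none) (fun i => u (some (some (some i)))))) := by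
    refine (SAP.lt (PF.coord _) (PF.coord _)).and ((SAP.lt (PF.coord _) (PF.coord _)).and
      (SAP.not (hp.preimage (ext_PF (fun i => PF.coord _) (PF.coord _)))))
  have h2 : SAP (fun u : Option (Option ι) → ℝ => u (some none) < u none ∧
      ¬ ∃ t, u (some none) < t ∧ t < u none ∧
        ¬ p (ext t (fun i => u (some (some i))))) := by
    refine (SAP.lt (PF.coord _) (PF.coord _)).and (SAP.not ?_)
    exact (SAP.exists_real h3).congr fun u => by simp
  refine (SAP.exists_real (SAP.exists_real h2)).congr fun z => ?_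
  simp only [ext_some, ext_none]
  constructor
  · rintro ⟨t1, t2, h1, h2⟩
    refine ⟨t1, t2, h1, ?_⟩
    rintro ⟨t, h3, h4, h5⟩
    exact h5 (h2 t h3 h4)
  · rintro ⟨t1, t2, h1, h2⟩
    refine ⟨t1, t2, h1, fun t h3 h4 => ?_⟩
    by_contra h5
    exact h2 ⟨t, h3, h4, h5⟩

/-- generic extension of sign preserving maps by one point -/
theorem one_point_generic [Countable ι] {v w : ℕ → ι → ℝ} (h : ST v w) (b : ℕ → ℝ)
    (hb : ∀ P : UP ι, ¬ ∀ᶠ n in (HF : Filter ℕ), spec (v n) P ≠ 0 ∧
      (spec (v n) P).eval (b n) = 0)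
    (B : ℕ → Set ℝ) (hB : ∀ n, #(B n) < continuum) :
    ∃ t : ℕ → ℝ, ST (fun n => ext (b n) (v n)) (fun n => ext (t n) (w n)) ∧
      ∀ᶠ n in (HF : Filter ℕ), t n ∉ B n := by
  classical
  obtain ⟨q, hq⟩ := exists_surjective_nat (MvPolynomial (Option ι) ℚ)
  have hs : ∀ j, ∃ s, ∀ᶠ n in (HF : Filter ℕ),
      SignType.sign (MvPolynomial.aeval (ext (b n) (v n)) (q j)) = s := fun j => exists_lim _
  choose s hs using hs
  choose F hF using exists_univ (ι := ι)
  have hgen : ∀ j, ∀ᶠ n in (HF : Filter ℕ), spec (v n) (F (q j)) = 0 ∨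
      (spec (v n) (F (q j))).eval (b n) ≠ 0 := by
    intro j
    have := Ultrafilter.eventually_not.2 (hb (F (q j)))
    filter_upwards [this] with n hn
    by_contra hcon
    push Not at hcon
    exact hn hcon
  obtain ⟨t, ht⟩ := sat (W := ℝ)
    (fun j n => {t | SignType.sign (MvPolynomial.aeval (ext t (w n)) (q j)) = s j ∧ t ∉ B n}) (by
      intro k
      have hp : SAP (fun z : Option ι → ℝ => ∀ j ∈ Finset.range (k + 1),
          SignType.sign (MvPolynomial.aeval z (q j)) = s j) :=
        SAP.forall_mem _ fun j _ => SAP.sign_eq (PF.aeval (q j)) _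
      have h1 := h.sap (SAP.interval hp) (by
        filter_upwards [(Filter.eventually_all_finset (Finset.range (k + 1))).2
          fun j _ => hs j, (Filter.eventually_all_finset (Finset.range (k + 1))).2
          fun j _ => hgen j] with n hn hg
        have hnear : ∀ᶠ t in nhds (b n), ∀ j ∈ Finset.range (k + 1),
            SignType.sign (MvPolynomial.aeval (ext t (v n)) (q j)) = s j := by
          refine (Filter.eventually_all_finset _).2 fun j hj => ?_
          have h2 := hn j hj
          rw [hF] at h2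
          rcases hg j hj with h3 | h3
          · rw [h3] at h2
            refine Eventually.of_forall fun t => ?_
            rw [hF, h3, ← h2]
            simp
          · have hc : Continuous fun t => (spec (v n) (F (q j))).eval t :=
              Polynomial.continuous _
            rcases lt_or_gt_of_ne h3 with h4 | h4
            · filter_upwards [hc.continuousAt.eventually_lt continuousAt_const h4] with t ht
              rw [hF, ← h2, sign_neg ht, sign_neg h4]
            · filter_upwards [continuousAt_const.eventually_lt hc.continuousAt h4] with t ht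
              rw [hF, ← h2, sign_pos ht, sign_pos h4]
        obtain ⟨t1, t2, ⟨h3, h4⟩, h5⟩ := mem_nhds_iff_exists_Ioo_subset.1 hnear
        exact ⟨t1, t2, h3.trans h4, fun t h6 h7 => h5 ⟨h6, h7⟩⟩)
      filter_upwards [h1] with n hn
      obtain ⟨t1, t2, h12, ht⟩ := hn
      have : ∃ t ∈ Set.Ioo t1 t2, t ∉ B n := by
        by_contra hcon
        push Not at hcon
        have h6 : #(Set.Ioo t1 t2) ≤ #(B n) := Cardinal.mk_le_mk_of_subset hcon
        rw [Cardinal.mk_Ioo_real h12] at h6
        exact absurd (hB n) (not_lt.2 h6)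
      obtain ⟨t, ht1, ht2⟩ := this
      exact ⟨t, fun j hj => ⟨ht t ht1.1 ht1.2 j (Finset.mem_range.2 (by omega)), ht2⟩⟩)
  refine ⟨t, fun q' => ?_, (ht 0).mono fun n hn => hn.2⟩
  obtain ⟨j, rfl⟩ := hq q'
  filter_upwards [ht j, hs j] with n h1 h2
  exact h2.trans h1.1.symm

end Pool.Agent.H195R3
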