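import Mathlib

set_option autoImplicit false
open MeasureTheory Matrix
open scoped ENNReal Real

namespace Pool.Agent.H195R3.SpecMeas

noncomputable section

/-- the digit shift on `[0,1) ∪ [2,3)` -/
def T (x : ℝ) : ℝ := 4 * Int.fract x - (if Even ⌊4 * Int.fract x⌋ then 0 else 1)

def Yk (k : ℕ) (x : ℝ) : ℝ≥0∞ := (3:ℝ≥0∞)⁻¹ ^ (k+1) * (if 2 ≤ T^[k] x then 1 else 0)

def Y (x : ℝ) : ℝ≥0∞ := ∑' k, Yk k x

def y (x : ℝ) : ℝ := (Y x).toReal

def Φ (x : ℝ) : Fin 2 → ℝ := ![x, y x]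

def E : Set ℝ := Set.Ico 0 1 ∪ Set.Ico 2 3

def ν : Measure ℝ := (2:ℝ≥0∞)⁻¹ • volume.restrict E

def μ : Measure (Fin 2 → ℝ) := ν.map Φ

/-- contraction -/
def ψ (i j : ℝ) (x : ℝ) : ℝ := x / 4 + (i / 4 + 2 * j)

lemma measurableSet_E : MeasurableSet E := measurableSet_Ico.union measurableSet_Ico

lemma measurable_T : Measurable T := by
  unfold T
  have h1 : Measurable (fun x : ℝ => 4 * Int.fract x) := (measurable_fract).const_mul 4
  refine h1.sub ?_
  refine Measurable.ite ?_ measurable_const measurable_const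
  have h2 : Measurable (fun x : ℝ => ⌊4 * Int.fract x⌋) := Int.measurable_floor.comp h1
  exact h2 (MeasurableSet.of_discrete (s := {n : ℤ | Even n}))

lemma measurable_Yk (k : ℕ) : Measurable (Yk k) := by
  unfold Yk
  refine Measurable.const_mul ?_ _
  refine Measurable.ite ?_ measurable_const measurable_const
  exact measurableSet_le measurable_const (measurable_T.iterate k)

lemma measurable_Y : Measurable Y := Measurable.ennreal_tsum measurable_Yk

lemma measurable_y : Measurable y := measurable_Y.ennreal_toReal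

lemma measurable_Φ : Measurable Φ := by
  rw [measurable_pi_iff]
  intro i
  fin_cases i
  · exact measurable_id
  · exact measurable_y

lemma Y_le (x : ℝ) : Y x ≤ 1 := by
  unfold Y Yk
  calc ∑' k, (3:ℝ≥0∞)⁻¹ ^ (k+1) * (if 2 ≤ T^[k] x then 1 else 0)
      ≤ ∑' k, (2:ℝ≥0∞)⁻¹ ^ (k+1) := by
        refine ENNReal.tsum_le_tsum fun k => ?_
        calc (3:ℝ≥0∞)⁻¹ ^ (k+1) * (if 2 ≤ T^[k] x then 1 else 0)
            ≤ (3:ℝ≥0∞)⁻¹ ^ (k+1) * 1 := by gcongr; split_ifs <;> simp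
          _ = (3:ℝ≥0∞)⁻¹ ^ (k+1) := mul_one _
          _ ≤ (2:ℝ≥0∞)⁻¹ ^ (k+1) := by
              gcongr
              norm_num
    _ = 1 := by
        simpa using ENNReal.tsum_geometric_add_one (2:ℝ≥0∞)⁻¹ |>.trans (by
          rw [ENNReal.one_sub_inv_two, inv_inv, ENNReal.inv_mul_cancel (by norm_num) (by norm_num)])

lemma T_psi {i j x : ℝ} (hi : i = 0 ∨ i = 1) (hj : j = 0 ∨ j = 1) (hx : x ∈ E) :
    T (ψ i j x) = x := by
  have hfl : ⌊x⌋ = 0 ∨ ⌊x⌋ = 2 := by
    rcases hx with hx | hx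
    · left; rw [Int.floor_eq_iff]; simpa using hx
    · right; rw [Int.floor_eq_iff]; constructor <;> norm_num <;> linarith [hx.1, hx.2]
  have hb : 0 ≤ x ∧ x < 3 := by
    rcases hx with hx | hx
    · exact ⟨hx.1, by linarith [hx.2]⟩
    · exact ⟨by linarith [hx.1], hx.2⟩
  have hfr : Int.fract (ψ i j x) = (x + i) / 4 := by
    have h2j : ψ i j x = (x + i) / 4 + 2 * j := by unfold ψ; ring
    rw [h2j]
    have hlt : 0 ≤ (x + i)/4 ∧ (x+i)/4 < 1 := by
      rcases hi with rfl | rfl <;> constructor <;> linarith [hb.1, hb.2]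
    rcases hj with rfl | rfl
    · simpa using Int.fract_eq_self.mpr hlt
    · have : (x + i) / 4 + 2 * 1 = (x + i)/4 + ((2:ℤ):ℝ) := by push_cast; ring
      rw [this, Int.fract_add_intCast]
      exact Int.fract_eq_self.mpr hlt
  unfold T
  rw [hfr]
  have h4 : 4 * ((x + i)/4) = x + i := by ring
  rw [h4]
  rcases hi with rfl | rfl
  · rw [add_zero]
    have : Even ⌊x⌋ := by rcases hfl with h | h <;> rw [h] <;> decide
    simp [this]
  · have h1 : ⌊x + 1⌋ = ⌊x⌋ + 1 := Int.floor_add_one x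
    have : ¬ Even ⌊x + 1⌋ := by
      rw [h1]; rcases hfl with h | h <;> rw [h] <;> decide
    rw [if_neg this]; ring

lemma ind_psi {i j x : ℝ} (hi : i = 0 ∨ i = 1) (hj : j = 0 ∨ j = 1) (hx : x ∈ E) :
    (if 2 ≤ ψ i j x then (1:ℝ≥0∞) else 0) = ENNReal.ofReal j := by
  have hb : 0 ≤ x ∧ x < 3 := by
    rcases hx with hx | hx
    · exact ⟨hx.1, by linarith [hx.2]⟩
    · exact ⟨by linarith [hx.1], hx.2⟩
  unfold ψ
  rcases hj with rfl | rfl
  · have : ¬ (2 ≤ x / 4 + (i / 4 + 2 * 0)) := by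
      rcases hi with rfl | rfl <;> linarith [hb.1, hb.2]
    simp only [this, if_false]; simp
  · have : (2 ≤ x / 4 + (i / 4 + 2 * 1)) := by
      rcases hi with rfl | rfl <;> linarith [hb.1, hb.2]
    rw [if_pos this]; simp

lemma Y_psi {i j x : ℝ} (hi : i = 0 ∨ i = 1) (hj : j = 0 ∨ j = 1) (hx : x ∈ E) :
    Y (ψ i j x) = (3:ℝ≥0∞)⁻¹ * (ENNReal.ofReal j + Y x) := by
  unfold Y
  rw [tsum_eq_zero_add' ENNReal.summable]
  have h0 : Yk 0 (ψ i j x) = (3:ℝ≥0∞)⁻¹ * ENNReal.ofReal j := by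
    unfold Yk
    rw [Function.iterate_zero, id, ind_psi hi hj hx]; simp
  have h1 : ∀ k, Yk (k+1) (ψ i j x) = (3:ℝ≥0∞)⁻¹ * Yk k x := by
    intro k
    unfold Yk
    rw [Function.iterate_succ_apply, T_psi hi hj hx, pow_succ' _ (k+1), mul_assoc]
  rw [h0]
  simp_rw [h1]
  rw [ENNReal.tsum_mul_left, mul_add]

lemma y_psi {i j x : ℝ} (hi : i = 0 ∨ i = 1) (hj : j = 0 ∨ j = 1) (hx : x ∈ E) :
    y (ψ i j x) = (y x + j) / 3 := by
  unfold y
  rw [Y_psi hi hj hx, ENNReal.toReal_mul, ENNReal.toReal_add (by simp) ((Y_le x).trans_lt (by simp)).ne]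
  have : 0 ≤ j := by rcases hj with rfl | rfl <;> norm_num
  rw [ENNReal.toReal_ofReal this]
  simp
  ring

lemma measurable_psi (i j : ℝ) : Measurable (ψ i j) := by
  unfold ψ; fun_prop

lemma map_volume_psi (i j : ℝ) : volume.map (ψ i j) = (4:ℝ≥0∞) • volume := by
  have h : ψ i j = (fun x => x + (i/4 + 2*j)) ∘ (fun x => x * (1/4)) := by
    funext x; simp [ψ]; ring
  rw [h, ← Measure.map_map (by fun_prop) (by fun_prop), Real.map_volume_mul_right (by norm_num),
    Measure.map_smul, map_add_right_eq_self]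
  norm_num

def E' (i j : ℝ) : Set ℝ := {z | 4 * (z - (i/4 + 2*j)) ∈ E}

lemma measurableSet_E' (i j : ℝ) : MeasurableSet (E' i j) := by
  unfold E'
  exact measurableSet_E.preimage (by fun_prop)

lemma map_restrict_psi (i j : ℝ) :
    (volume.restrict E).map (ψ i j) = (4:ℝ≥0∞) • volume.restrict (E' i j) := by
  have h : (ψ i j) ⁻¹' (E' i j) = E := by
    ext x; simp [E', ψ]
    ring_nf
  rw [← h, ← Measure.restrict_map (measurable_psi i j) (measurableSet_E' i j), map_volume_psi,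
    Measure.restrict_smul]

lemma E'_eq (i j : ℝ) : E' i j = Set.Ico (i/4+2*j) (i/4+2*j+1/4) ∪ Set.Ico (i/4+2*j+1/2) (i/4+2*j+3/4) := by
  ext x
  simp only [E', E, Set.mem_setOf_eq, Set.mem_union, Set.mem_Ico]
  constructor
  · rintro (⟨h1, h2⟩ | ⟨h1, h2⟩)
    · left; constructor <;> linarith
    · right; constructor <;> linarith
  · rintro (⟨h1, h2⟩ | ⟨h1, h2⟩)
    · left; constructor <;> linarith
    · right; constructor <;> linarith

lemma disj1 : Disjoint (E' 0 0) (E' 1 0) := by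
  rw [Set.disjoint_left]; intro x
  rw [E'_eq, E'_eq]
  simp only [Set.mem_union, Set.mem_Ico]
  rintro (⟨h1, h2⟩ | ⟨h1, h2⟩) (⟨h3, h4⟩ | ⟨h3, h4⟩) <;> linarith

lemma disj2 : Disjoint (E' 0 0 ∪ E' 1 0) (E' 0 1) := by
  rw [Set.disjoint_left]; intro x
  rw [E'_eq, E'_eq, E'_eq]
  simp only [Set.mem_union, Set.mem_Ico]
  rintro ((⟨h1, h2⟩ | ⟨h1, h2⟩)|(⟨h1, h2⟩ | ⟨h1, h2⟩)) (⟨h3, h4⟩ | ⟨h3, h4⟩) <;> linarith

lemma disj3 : Disjoint (E' 0 0 ∪ E' 1 0 ∪ E' 0 1) (E' 1 1) := by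
  rw [Set.disjoint_left]; intro x
  rw [E'_eq, E'_eq, E'_eq, E'_eq]
  simp only [Set.mem_union, Set.mem_Ico]
  rintro (((⟨h1, h2⟩ | ⟨h1, h2⟩)|(⟨h1, h2⟩ | ⟨h1, h2⟩))|(⟨h1, h2⟩ | ⟨h1, h2⟩)) (⟨h3, h4⟩ | ⟨h3, h4⟩) <;> linarith

lemma union_E' : E' 0 0 ∪ E' 1 0 ∪ E' 0 1 ∪ E' 1 1 = E := by
  ext x
  rw [E'_eq, E'_eq, E'_eq, E'_eq]
  simp only [E, Set.mem_union, Set.mem_Ico]
  constructor
  · rintro ((((⟨h1, h2⟩ | ⟨h1, h2⟩)|(⟨h1, h2⟩ | ⟨h1, h2⟩))|(⟨h1, h2⟩ | ⟨h1, h2⟩))|(⟨h1, h2⟩ | ⟨h1, h2⟩))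
    all_goals first
      | (left; constructor <;> linarith)
      | (right; constructor <;> linarith)
  · rintro (⟨h1, h2⟩ | ⟨h1, h2⟩)
    · rcases lt_or_ge x (1/4) with h | h
      · left; left; left; left; constructor <;> linarith
      rcases lt_or_ge x (1/2) with h' | h'
      · left; left; right; left; constructor <;> linarith
      rcases lt_or_ge x (3/4) with h'' | h''
      · left; left; left; right; constructor <;> linarith
      · left; left; right; right; constructor <;> linarith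
    · rcases lt_or_ge x (9/4) with h | h
      · left; right; left; constructor <;> linarith
      rcases lt_or_ge x (5/2) with h' | h'
      · right; left; constructor <;> linarith
      rcases lt_or_ge x (11/4) with h'' | h''
      · left; right; right; constructor <;> linarith
      · right; right; constructor <;> linarith

lemma sum_restrict : volume.restrict (E' 0 0) + volume.restrict (E' 1 0) + volume.restrict (E' 0 1)
    + volume.restrict (E' 1 1) = volume.restrict E := by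
  rw [← union_E', Measure.restrict_union disj3 (measurableSet_E' _ _),
    Measure.restrict_union disj2 (measurableSet_E' _ _),
    Measure.restrict_union disj1 (measurableSet_E' _ _)]

lemma nu_selfsim : ν = (4:ℝ≥0∞)⁻¹ • (ν.map (ψ 0 0) + ν.map (ψ 1 0) + ν.map (ψ 0 1) + ν.map (ψ 1 1)) := by
  have h : ∀ i j : ℝ, ν.map (ψ i j) = (4:ℝ≥0∞) • ((2:ℝ≥0∞)⁻¹ • volume.restrict (E' i j)) := by
    intro i j
    rw [ν, Measure.map_smul, map_restrict_psi, smul_comm]
  simp only [h]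
  rw [← smul_add, ← smul_add, ← smul_add, ← smul_add, ← smul_add, ← smul_add, sum_restrict, smul_smul,
    ENNReal.inv_mul_cancel (by norm_num) (by norm_num), one_smul]
  rfl

instance : IsProbabilityMeasure ν := by
  constructor
  rw [ν, Measure.smul_apply, Measure.restrict_apply MeasurableSet.univ, Set.univ_inter, E,
    measure_union (by rw [Set.disjoint_left]; intro x h1 h2; exact absurd h2.1 (by have := h1.2; linarith)) measurableSet_Ico]
  simp
  norm_num
  exact ENNReal.inv_mul_cancel (by norm_num) (by norm_num)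

instance : IsProbabilityMeasure μ := Measure.isProbabilityMeasure_map measurable_Φ.aemeasurable

lemma ae_mem_E : ∀ᵐ x ∂ν, x ∈ E := by
  rw [ν]
  refine Measure.ae_smul_measure ?_ _
  exact ae_restrict_mem measurableSet_E

end

end Pool.Agent.H195R3.SpecMeas
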