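import Mathlib
import Pool.Agent.H195R3.SpecMeasA

set_option autoImplicit false
open MeasureTheory Matrix
open scoped ENNReal Real

namespace Pool.Agent.H195R3.SpecMeas

noncomputable section

lemma nu_eq : ν = (2:ℝ≥0∞)⁻¹ • (volume.restrict (Set.Ioc (0:ℝ) 1) + volume.restrict (Set.Ioc (2:ℝ) 3)) := by
  rw [ν, E, Measure.restrict_union (by rw [Set.disjoint_left]; intro x h1 h2; exact absurd h2.1 (by have := h1.2; linarith)) measurableSet_Ico,
    Measure.restrict_congr_set (Ico_ae_eq_Ioc (a := (0:ℝ)) (b := 1)),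
    Measure.restrict_congr_set (Ico_ae_eq_Ioc (a := (2:ℝ)) (b := 3))]

lemma mp_shift : MeasurePreserving (fun x : ℝ => x + 2) (volume.restrict (Set.Ioc (0:ℝ) 1))
    (volume.restrict (Set.Ioc (2:ℝ) 3)) := by
  have h := (measurePreserving_add_right (volume : Measure ℝ) (2:ℝ)).restrict_preimage
    (measurableSet_Ioc (a := (2:ℝ)) (b := 3))
  have h2 : (fun x : ℝ => x + 2) ⁻¹' Set.Ioc (2:ℝ) 3 = Set.Ioc (0:ℝ) 1 := by
    ext x; simp only [Set.mem_preimage, Set.mem_Ioc]; constructor <;> rintro ⟨h1, h2⟩ <;> constructor <;> linarith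
  rw [h2] at h
  exact h

lemma half_ne : ((2:ℝ≥0∞)⁻¹) ≠ 0 := by simp
lemma half_ne_top : ((2:ℝ≥0∞)⁻¹) ≠ ⊤ := by simp

lemma integral_nu {F : ℝ → ℂ} (hF : Integrable F ν) :
    ∫ x, F x ∂ν = (1/2 : ℂ) * ∫ x in (0:ℝ)..1, (F x + F (x+2)) := by
  rw [nu_eq] at hF
  have hF2 := (integrable_smul_measure half_ne half_ne_top).mp hF
  rw [integrable_add_measure] at hF2
  obtain ⟨h1, h2⟩ := hF2
  have h3 : Integrable (fun x => F (x+2)) (volume.restrict (Set.Ioc (0:ℝ) 1)) :=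
    mp_shift.integrable_comp_of_integrable h2
  rw [nu_eq, integral_smul_measure, integral_add_measure h1 h2]
  have h4 : ∫ x in Set.Ioc (2:ℝ) 3, F x = ∫ x in Set.Ioc (0:ℝ) 1, F (x+2) := by
    have := mp_shift.integral_comp (MeasurableEquiv.addRight (2:ℝ)).measurableEmbedding F
    exact this.symm
  rw [h4, intervalIntegral.integral_of_le zero_le_one, integral_add h1 h3]
  simp
  ring

lemma zero_of_coeff {h : ℝ → ℂ} (hL : MemLp h 2 (volume.restrict (Set.Ioc (0:ℝ) 1)))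
    (hc : ∀ k : ℤ, ∫ x in (0:ℝ)..1, h x * Complex.exp (-(2*π*Complex.I*(k * x))) = 0) :
    h =ᵐ[volume.restrict (Set.Ioc (0:ℝ) 1)] 0 := by
  have h0 : ∀ k : ℤ, fourierCoeffOn (zero_lt_one' ℝ) h k = 0 := by
    intro k
    rw [fourierCoeffOn_eq_integral]
    have : (fun x : ℝ => (fourier (-k) (x : AddCircle ((1:ℝ)-0))) • h x) =
        fun x : ℝ => h x * Complex.exp (-(2*π*Complex.I*(k * x))) := by
      funext x
      rw [fourier_coe_apply, smul_eq_mul, mul_comm]
      congr 2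
      push_cast
      ring
    rw [this, hc k, smul_zero]
  have hs := hasSum_sq_fourierCoeffOn (zero_lt_one' ℝ) hL
  simp only [h0, norm_zero, ne_eq, OfNat.ofNat_ne_zero, not_false_eq_true, zero_pow] at hs
  have hs0 := hs.unique hasSum_zero
  rw [sub_zero, inv_one, one_smul, intervalIntegral.integral_of_le zero_le_one] at hs0
  have hi : Integrable (fun x => ‖h x‖^2) (volume.restrict (Set.Ioc (0:ℝ) 1)) :=
    (memLp_two_iff_integrable_sq_norm hL.1).mp hL
  rw [integral_eq_zero_iff_of_nonneg (fun x => by positivity) hi] at hs0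
  filter_upwards [hs0] with x hx
  simpa using hx

lemma norm_exp_I (r : ℝ) : ‖Complex.exp (2*π*Complex.I*(r:ℂ))‖ = 1 := by
  have : (2*π*Complex.I*(r:ℂ)) = ((2*π*r : ℝ) : ℂ) * Complex.I := by push_cast; ring
  rw [this, Complex.norm_exp_ofReal_mul_I]

lemma norm_exp_I' (r : ℝ) : ‖Complex.exp (-(2*π*Complex.I*(r:ℂ)))‖ = 1 := by
  have := norm_exp_I (-r)
  convert this using 3
  push_cast; ring

lemma exp_half (a : ℝ) (k : ℤ) (h : a = k + 1/4) :
    Complex.exp (-(2*π*Complex.I*((a * 2 : ℝ):ℂ))) = -1 := by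
  have : (-(2*π*Complex.I*((a * 2 : ℝ):ℂ))) = ((-(4*k+1) : ℤ) : ℂ) * (π * Complex.I) := by
    rw [h]; push_cast; ring
  rw [this, Complex.exp_int_mul, Complex.exp_pi_mul_I]
  have : Odd (-(4*k+1)) := by
    rw [Int.odd_iff]; omega
  exact this.neg_one_zpow

lemma exp_int (k : ℤ) : Complex.exp (-(2*π*Complex.I*(((k:ℝ) * 2 : ℝ):ℂ))) = 1 := by
  have : (-(2*π*Complex.I*(((k:ℝ) * 2 : ℝ):ℂ))) = ((-(2*k) : ℤ) : ℂ) * (2 * π * Complex.I) := by
    push_cast; ring
  rw [this]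
  exact Complex.exp_int_mul_two_pi_mul_I _

/-- completeness on `E` -/
lemma complete {g : ℝ → ℂ} (hg : MemLp g 2 ν)
    (h : ∀ a : ℝ, (∃ k : ℤ, a = k ∨ a = k + 1/4) →
      ∫ x, g x * Complex.exp (-(2*π*Complex.I*((a * x : ℝ):ℂ))) ∂ν = 0) :
    g =ᵐ[ν] 0 := by
  have hgE : MemLp g 2 (volume.restrict (Set.Ioc (0:ℝ) 1) + volume.restrict (Set.Ioc (2:ℝ) 3)) := by
    have h2 := hg.smul_measure (c := (2:ℝ≥0∞)) (by norm_num)
    rw [nu_eq, smul_smul, ENNReal.mul_inv_cancel (by norm_num) (by norm_num), one_smul] at h2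
    exact h2
  have hg1 : MemLp g 2 (volume.restrict (Set.Ioc (0:ℝ) 1)) :=
    hgE.mono_measure (Measure.le_add_right le_rfl)
  have hg2' : MemLp g 2 (volume.restrict (Set.Ioc (2:ℝ) 3)) :=
    hgE.mono_measure (Measure.le_add_left le_rfl)
  have hg2 : MemLp (fun x => g (x+2)) 2 (volume.restrict (Set.Ioc (0:ℝ) 1)) :=
    hg2'.comp_measurePreserving mp_shift
  have hgi : Integrable g ν := hg.integrable (by norm_num)
  have key : ∀ a : ℝ, (∃ k : ℤ, a = k ∨ a = k + 1/4) →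
      ∫ x in (0:ℝ)..1, (g x + g (x+2) * Complex.exp (-(2*π*Complex.I*((a * 2 : ℝ):ℂ)))) *
        Complex.exp (-(2*π*Complex.I*((a * x : ℝ):ℂ))) = 0 := by
    intro a ha
    have h1 := h a ha
    have hint : Integrable (fun x => g x * Complex.exp (-(2*π*Complex.I*((a * x : ℝ):ℂ)))) ν := by
      refine hgi.mul_bdd (c := 1) ?_ ?_
      · apply Continuous.aestronglyMeasurable; fun_prop
      · filter_upwards with x; exact (norm_exp_I' _).le
    rw [integral_nu hint] at h1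
    have h2 : (1/2 : ℂ) ≠ 0 := by norm_num
    have h3 := (mul_eq_zero.mp h1).resolve_left h2
    rw [← h3]
    congr 1
    funext x
    have : Complex.exp (-(2*π*Complex.I*((a * (x+2) : ℝ):ℂ))) =
        Complex.exp (-(2*π*Complex.I*((a * 2 : ℝ):ℂ))) * Complex.exp (-(2*π*Complex.I*((a * x : ℝ):ℂ))) := by
      rw [← Complex.exp_add]; congr 1; push_cast; ring
    rw [this]; ring
  have hA : (fun x => g x + g (x+2)) =ᵐ[volume.restrict (Set.Ioc (0:ℝ) 1)] 0 := by
    refine zero_of_coeff (hg1.add hg2) fun k => ?_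
    have := key k ⟨k, Or.inl rfl⟩
    rw [exp_int] at this
    rw [← this]
    congr 1; funext x
    rw [mul_one]; push_cast; rfl
  have hB : (fun x => (g x - g (x+2)) * Complex.exp (-(2*π*Complex.I*((1/4 * x : ℝ):ℂ)))) =ᵐ[volume.restrict (Set.Ioc (0:ℝ) 1)] 0 := by
    refine zero_of_coeff ?_ fun k => ?_
    · refine (hg1.sub hg2).mono ?_ ?_
      · refine (hg1.1.sub hg2.1).mul ?_
        apply Continuous.aestronglyMeasurable; fun_prop
      · filter_upwards with x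
        rw [norm_mul, norm_exp_I', mul_one]
        exact le_rfl
    · have := key (k+1/4) ⟨k, Or.inr rfl⟩
      rw [exp_half _ k rfl] at this
      rw [← this]
      congr 1; funext x
      rw [mul_assoc, ← Complex.exp_add]
      congr 2
      · ring
      · push_cast; ring
  have hC : (fun x => g x - g (x+2)) =ᵐ[volume.restrict (Set.Ioc (0:ℝ) 1)] 0 := by
    filter_upwards [hB] with x hx
    simpa [Complex.exp_ne_zero] using hx
  have h01 : g =ᵐ[volume.restrict (Set.Ioc (0:ℝ) 1)] 0 := by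
    filter_upwards [hA, hC] with x h1 h2
    simp only [Pi.zero_apply] at h1 h2 ⊢
    linear_combination (1/2 : ℂ) * h1 + (1/2 : ℂ) * h2
  have h23' : (fun x => g (x+2)) =ᵐ[volume.restrict (Set.Ioc (0:ℝ) 1)] 0 := by
    filter_upwards [hA, hC] with x h1 h2
    simp only [Pi.zero_apply] at h1 h2 ⊢
    linear_combination (1/2 : ℂ) * h1 - (1/2 : ℂ) * h2
  have h23 : g =ᵐ[volume.restrict (Set.Ioc (2:ℝ) 3)] 0 := by
    rw [← eLpNorm_eq_zero_iff hg2'.1 (p := 2) (by norm_num), ← eLpNorm_comp_measurePreserving hg2'.1 mp_shift]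
    rw [eLpNorm_eq_zero_iff (hg2'.1.comp_measurePreserving mp_shift) (by norm_num)]
    exact h23'
  rw [nu_eq]
  refine Measure.ae_smul_measure ?_ _
  exact ae_add_measure_iff.mpr ⟨h01, h23⟩

lemma integral_exp_unit {d : ℝ} (hd : d ≠ 0) :
    ∫ x in (0:ℝ)..1, Complex.exp (2*π*Complex.I*((d * x : ℝ):ℂ)) =
      (Complex.exp (2*π*Complex.I*(d:ℂ)) - 1) / (2*π*Complex.I*d) := by
  have hne : (2*π*Complex.I*(d:ℂ)) ≠ 0 := by
    simp [Real.pi_ne_zero, Complex.I_ne_zero, hd]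
  have := integral_exp_mul_complex (a := 0) (b := 1) hne
  simp only [Complex.ofReal_zero, mul_zero, Complex.exp_zero, Complex.ofReal_one, mul_one] at this
  rw [← this]
  congr 1; funext x
  congr 1
  push_cast; ring

lemma integral_exp_nu (d : ℝ) :
    ∫ x, Complex.exp (2*π*Complex.I*((d * x : ℝ):ℂ)) ∂ν =
      (1/2 : ℂ) * (1 + Complex.exp (2*π*Complex.I*((d*2 : ℝ):ℂ))) *
        ∫ x in (0:ℝ)..1, Complex.exp (2*π*Complex.I*((d * x : ℝ):ℂ)) := by
  have hint : Integrable (fun x => Complex.exp (2*π*Complex.I*((d * x : ℝ):ℂ))) ν := by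
    refine Integrable.of_bound (C := 1) ?_ ?_
    · apply Continuous.aestronglyMeasurable; fun_prop
    · filter_upwards with x; exact (norm_exp_I _).le
  rw [integral_nu hint]
  have hfun : (fun x : ℝ => Complex.exp (2*π*Complex.I*((d * x : ℝ):ℂ)) + Complex.exp (2*π*Complex.I*((d * (x+2) : ℝ):ℂ)))
      = fun x : ℝ => (1 + Complex.exp (2*π*Complex.I*((d*2 : ℝ):ℂ))) * Complex.exp (2*π*Complex.I*((d * x : ℝ):ℂ)) := by
    funext x
    have : Complex.exp (2*π*Complex.I*((d * (x+2) : ℝ):ℂ)) =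
        Complex.exp (2*π*Complex.I*((d * 2 : ℝ):ℂ)) * Complex.exp (2*π*Complex.I*((d * x : ℝ):ℂ)) := by
      rw [← Complex.exp_add]; congr 1; push_cast; ring
    rw [this]; ring
  rw [hfun, intervalIntegral.integral_const_mul]
  ring

lemma integral_exp_nu_zero {d : ℝ} (hd : d ≠ 0)
    (h : ∃ k : ℤ, d = k ∨ d = k + 1/4 ∨ d = k - 1/4) :
    ∫ x, Complex.exp (2*π*Complex.I*((d * x : ℝ):ℂ)) ∂ν = 0 := by
  rw [integral_exp_nu]
  obtain ⟨k, hk | hk | hk⟩ := h
  · rw [integral_exp_unit hd]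
    have : Complex.exp (2*π*Complex.I*(d:ℂ)) = 1 := by
      rw [hk]
      have : (2*π*Complex.I*((k:ℝ):ℂ)) = (k:ℂ) * (2 * π * Complex.I) := by push_cast; ring
      rw [this]; exact Complex.exp_int_mul_two_pi_mul_I _
    rw [this]; simp
  · have : Complex.exp (2*π*Complex.I*((d*2 : ℝ):ℂ)) = -1 := by
      have h2 : (2*π*Complex.I*((d*2 : ℝ):ℂ)) = (((4*k+1) : ℤ) : ℂ) * (π * Complex.I) := by
        rw [hk]; push_cast; ring
      rw [h2, Complex.exp_int_mul, Complex.exp_pi_mul_I]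
      exact (by rw [Int.odd_iff]; omega : Odd (4*k+1)).neg_one_zpow
    rw [this]; simp
  · have : Complex.exp (2*π*Complex.I*((d*2 : ℝ):ℂ)) = -1 := by
      have h2 : (2*π*Complex.I*((d*2 : ℝ):ℂ)) = (((4*k-1) : ℤ) : ℂ) * (π * Complex.I) := by
        rw [hk]; push_cast; ring
      rw [h2, Complex.exp_int_mul, Complex.exp_pi_mul_I]
      exact (by rw [Int.odd_iff]; omega : Odd (4*k-1)).neg_one_zpow
    rw [this]; simp

end

end Pool.Agent.H195R3.SpecMeas
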