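import Mathlib
import Pool.Agent.H195R3.SpecMeasB

set_option autoImplicit false
open MeasureTheory Matrix
open scoped ENNReal Real

namespace Pool.Agent.H195R3.SpecMeas

noncomputable section

def R : Matrix (Fin 2) (Fin 2) ℤ := !![4, 0; 0, 3]

def B : Finset (Fin 2 → ℤ) := {![0, 0], ![1, 0], ![8, 1], ![9, 1]}

lemma R_inv : (R.map (Int.cast : ℤ → ℝ))⁻¹ = !![1/4, 0; 0, 1/3] := by
  apply Matrix.inv_eq_left_inv
  ext i j
  fin_cases i <;> fin_cases j <;> simp [R, Matrix.mul_apply, Fin.sum_univ_two]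

lemma R_exp : ∀ z : ℂ, (R.map (Int.cast : ℤ → ℂ)).charpoly.IsRoot z → 1 < ‖z‖ := by
  intro z hz
  have : (R.map (Int.cast : ℤ → ℂ)).charpoly = (Polynomial.X - Polynomial.C 4) * (Polynomial.X - Polynomial.C 3) := by
    rw [Matrix.charpoly_fin_two]
    have ht : (R.map (Int.cast : ℤ → ℂ)).trace = 7 := by
      simp [R, Matrix.trace_fin_two]; norm_num
    have hd : (R.map (Int.cast : ℤ → ℂ)).det = 12 := by
      simp [R, Matrix.det_fin_two]; norm_num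
    rw [ht, hd]
    have h1 : (Polynomial.C (7:ℂ)) = Polynomial.C 4 + Polynomial.C 3 := by rw [← Polynomial.C_add]; norm_num
    have h2 : (Polynomial.C (12:ℂ)) = Polynomial.C 4 * Polynomial.C 3 := by rw [← Polynomial.C_mul]; norm_num
    rw [h1, h2]
    ring
  rw [this, Polynomial.IsRoot.def, Polynomial.eval_mul] at hz
  simp only [Polynomial.eval_sub, Polynomial.eval_X, Polynomial.eval_C, mul_eq_zero, sub_eq_zero] at hz
  rcases hz with rfl | rfl <;> norm_num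

lemma B_simple : ∀ b ∈ B, ∀ b' ∈ B, b ≠ b' → ¬ ∃ v : Fin 2 → ℤ, R *ᵥ v = b - b' := by
  intro b hb b' hb' hne
  rintro ⟨v, hv⟩
  have h0 := congrFun hv 0
  have h1 := congrFun hv 1
  simp [R, Matrix.mulVec, dotProduct, Fin.sum_univ_two] at h0 h1
  simp only [B, Finset.mem_insert, Finset.mem_singleton] at hb hb'
  rcases hb with rfl | rfl | rfl | rfl <;> rcases hb' with rfl | rfl | rfl | rfl <;>
    simp at h0 h1 hne <;> omega

lemma B_card : B.card = 4 := by decide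

lemma R_det : R.det = 12 := by simp [R, Matrix.det_fin_two]

lemma B_zero : (0 : Fin 2 → ℤ) ∈ B := by decide

lemma B_closure : AddSubgroup.closure {v : Fin 2 → ℤ | ∃ k : ℕ, ∃ b ∈ B, v = (R ^ k) *ᵥ b} = ⊤ := by
  rw [eq_top_iff]
  intro v _
  have h1 : (![1, 0] : Fin 2 → ℤ) ∈ AddSubgroup.closure {v : Fin 2 → ℤ | ∃ k : ℕ, ∃ b ∈ B, v = (R ^ k) *ᵥ b} :=
    AddSubgroup.subset_closure ⟨0, ![1, 0], by decide, by simp⟩
  have h2 : (![8, 1] : Fin 2 → ℤ) ∈ AddSubgroup.closure {v : Fin 2 → ℤ | ∃ k : ℕ, ∃ b ∈ B, v = (R ^ k) *ᵥ b} :=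
    AddSubgroup.subset_closure ⟨0, ![8, 1], by decide, by simp⟩
  have : v = (v 0 - 8 * v 1) • (![1, 0] : Fin 2 → ℤ) + (v 1) • (![8, 1] : Fin 2 → ℤ) := by
    ext i; fin_cases i <;> simp; ring
  rw [this]
  exact AddSubgroup.add_mem _ (AddSubgroup.zsmul_mem _ h1 _) (AddSubgroup.zsmul_mem _ h2 _)

lemma phi_eq (b : Fin 2 → ℤ) : (fun x : Fin 2 → ℝ => (R.map (Int.cast : ℤ → ℝ))⁻¹ *ᵥ (x + fun i => (b i : ℝ)))
    = fun x : Fin 2 → ℝ => (![(x 0 + b 0) / 4, (x 1 + b 1) / 3] : Fin 2 → ℝ) := by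
  funext x
  rw [R_inv]
  ext i; fin_cases i <;> simp [Matrix.mulVec, dotProduct, Fin.sum_univ_two] <;> ring

lemma measurable_phi (b : Fin 2 → ℤ) :
    Measurable (fun x : Fin 2 → ℝ => (![(x 0 + b 0) / 4, (x 1 + b 1) / 3] : Fin 2 → ℝ)) := by
  rw [measurable_pi_iff]
  intro i
  fin_cases i
  · exact ((measurable_pi_apply 0).add_const _).div_const _
  · exact ((measurable_pi_apply 1).add_const _).div_const _

lemma map_phi (b : Fin 2 → ℤ) {i j : ℝ} (hi : i = 0 ∨ i = 1) (hj : j = 0 ∨ j = 1)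
    (h0 : (b 0 : ℝ) = i + 8 * j) (h1 : (b 1 : ℝ) = j) :
    μ.map (fun x => (R.map (Int.cast : ℤ → ℝ))⁻¹ *ᵥ (x + fun i => (b i : ℝ))) = (ν.map (ψ i j)).map Φ := by
  rw [phi_eq, μ, Measure.map_map (measurable_phi b) measurable_Φ, Measure.map_map measurable_Φ (measurable_psi i j)]
  apply Measure.map_congr
  filter_upwards [ae_mem_E] with x hx
  simp only [Function.comp_apply, Φ]
  rw [y_psi hi hj hx]
  ext k; fin_cases k
  · simp [ψ, h0]; ring
  · simp [h1]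

lemma mu_selfsim : μ = ((B.card : ℝ≥0∞)⁻¹) • ∑ b ∈ B,
            μ.map (fun x => (R.map (Int.cast : ℤ → ℝ))⁻¹ *ᵥ (x + fun i => (b i : ℝ))) := by
  rw [B_card]
  have hsum : ∑ b ∈ B, μ.map (fun x => (R.map (Int.cast : ℤ → ℝ))⁻¹ *ᵥ (x + fun i => (b i : ℝ)))
      = (ν.map (ψ 0 0)).map Φ + (ν.map (ψ 1 0)).map Φ + (ν.map (ψ 0 1)).map Φ + (ν.map (ψ 1 1)).map Φ := by
    rw [B, Finset.sum_insert (by decide), Finset.sum_insert (by decide), Finset.sum_insert (by decide),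
      Finset.sum_singleton,
      map_phi ![0,0] (i := 0) (j := 0) (by simp) (by simp) (by simp) (by simp),
      map_phi ![1,0] (i := 1) (j := 0) (by simp) (by simp) (by simp) (by simp),
      map_phi ![8,1] (i := 0) (j := 1) (by simp) (by simp) (by simp) (by simp),
      map_phi ![9,1] (i := 1) (j := 1) (by simp) (by simp) (by simp; norm_num) (by simp)]
    simp only [add_assoc]
  rw [hsum, ← Measure.map_add _ _ measurable_Φ, ← Measure.map_add _ _ measurable_Φ,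
    ← Measure.map_add _ _ measurable_Φ, ← Measure.map_smul]
  have := nu_selfsim
  rw [Nat.cast_ofNat, ← this]
  rfl

def Λ : Set (Fin 2 → ℝ) := {l | l 1 = 0 ∧ ∃ k : ℤ, l 0 = k ∨ l 0 = k + 1/4}

lemma integral_mu {F : (Fin 2 → ℝ) → ℂ} (hF : AEStronglyMeasurable F μ) :
    ∫ x, F x ∂μ = ∫ x, F (Φ x) ∂ν :=
  integral_map measurable_Φ.aemeasurable hF

lemma orth : ∀ l ∈ Λ, ∀ l' ∈ Λ,
          (l = l' → ∫ x, Complex.exp (2 * π * Complex.I * ((∑ i, (l i - l' i) * x i : ℝ) : ℂ)) ∂μ = 1) ∧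
          (l ≠ l' → ∫ x, Complex.exp (2 * π * Complex.I * ((∑ i, (l i - l' i) * x i : ℝ) : ℂ)) ∂μ = 0) := by
  rintro l ⟨hl1, k, hl⟩ l' ⟨hl1', k', hl'⟩
  constructor
  · rintro rfl
    simp
  · intro hne
    rw [integral_mu (by apply Continuous.aestronglyMeasurable; fun_prop)]
    have hd : l 0 - l' 0 ≠ 0 := by
      intro h
      apply hne
      ext i; fin_cases i
      · simpa [sub_eq_zero] using h
      · simp [hl1, hl1']
    have : (fun x : ℝ => Complex.exp (2 * π * Complex.I * ((∑ i, (l i - l' i) * Φ x i : ℝ) : ℂ)))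
        = fun x : ℝ => Complex.exp (2*π*Complex.I*(((l 0 - l' 0) * x : ℝ):ℂ)) := by
      funext x
      rw [Fin.sum_univ_two, hl1, hl1']
      simp [Φ]
    rw [this]
    apply integral_exp_nu_zero hd
    rcases hl with hl | hl <;> rcases hl' with hl' | hl'
    · exact ⟨k - k', Or.inl (by rw [hl, hl']; push_cast; ring)⟩
    · exact ⟨k - k', Or.inr (Or.inr (by rw [hl, hl']; push_cast; ring))⟩
    · exact ⟨k - k', Or.inr (Or.inl (by rw [hl, hl']; push_cast; ring))⟩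
    · exact ⟨k - k', Or.inl (by rw [hl, hl']; push_cast; ring)⟩

lemma comp : ∀ f : (Fin 2 → ℝ) → ℂ, MemLp f 2 μ →
          (∀ l ∈ Λ, ∫ x, f x * Complex.exp (-(2 * π * Complex.I * ((∑ i, l i * x i : ℝ) : ℂ))) ∂μ = 0) →
          f =ᵐ[μ] 0 := by
  intro f hf h
  have hfΦ : MemLp (fun x => f (Φ x)) 2 ν := by
    have := (memLp_map_measure_iff hf.1 measurable_Φ.aemeasurable).mp hf
    exact this
  have h0 : (fun x => f (Φ x)) =ᵐ[ν] 0 := by
    apply complete hfΦ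
    rintro a ha
    have h1 := h ![a, 0] ⟨by simp, by simpa using ha⟩
    rw [integral_mu] at h1
    · rw [← h1]
      congr 1; funext x
      congr 3
      rw [Fin.sum_univ_two]; simp [Φ]
    · refine hf.1.mul ?_
      apply Continuous.aestronglyMeasurable; fun_prop
  rw [← eLpNorm_eq_zero_iff hf.1 (p := 2) (by norm_num), μ, eLpNorm_map_measure hf.1 measurable_Φ.aemeasurable]
  exact (eLpNorm_eq_zero_iff hfΦ.1 (p := 2) (by norm_num)).mpr h0

lemma sum_B (n : Fin 2 → ℝ) :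
    ∑ b ∈ B, Complex.exp (2 * π * Complex.I *
              ((∑ i, ((R.map (Int.cast : ℤ → ℝ))⁻¹ *ᵥ (fun j => (b j : ℝ))) i * n i : ℝ) : ℂ))
      = 1 + Complex.exp (2 * π * Complex.I * ((n 0 / 4 : ℝ):ℂ)) + Complex.exp (2 * π * Complex.I * ((2 * n 0 + n 1 / 3 : ℝ):ℂ))
        + Complex.exp (2 * π * Complex.I * ((9 * n 0 / 4 + n 1 / 3 : ℝ):ℂ)) := by
  rw [R_inv, B, Finset.sum_insert (by decide), Finset.sum_insert (by decide), Finset.sum_insert (by decide),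
      Finset.sum_singleton]
  simp only [Matrix.mulVec, dotProduct, Fin.sum_univ_two]
  simp
  ring_nf

lemma exp_two_pi_int (k : ℤ) (z : ℂ) : Complex.exp (2 * π * Complex.I * ((k:ℂ) + z)) = Complex.exp (2 * π * Complex.I * z) := by
  rw [mul_add, Complex.exp_add]
  have : (2 * π * Complex.I * (k:ℂ)) = (k:ℂ) * (2 * π * Complex.I) := by ring
  rw [this, Complex.exp_int_mul_two_pi_mul_I, one_mul]

lemma mask_zero (n : Fin 2 → ℤ)
    (h : 1 + Complex.exp (2 * π * Complex.I * (((n 0 : ℝ) / 4 : ℝ):ℂ)) + Complex.exp (2 * π * Complex.I * ((2 * (n 0 : ℝ) + (n 1 : ℝ) / 3 : ℝ):ℂ))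
        + Complex.exp (2 * π * Complex.I * ((9 * (n 0 : ℝ) / 4 + (n 1 : ℝ) / 3 : ℝ):ℂ)) = 0) : n 0 % 4 = 2 := by
  have e1 : Complex.exp (2 * π * Complex.I * ((2 * (n 0 : ℝ) + (n 1 : ℝ) / 3 : ℝ):ℂ)) = Complex.exp (2 * π * Complex.I * (((n 1 : ℝ) / 3 : ℝ):ℂ)) := by
    rw [← exp_two_pi_int (2 * n 0) ((((n 1 : ℝ) / 3 : ℝ)):ℂ)]; congr 2; push_cast; ring
  have e2 : Complex.exp (2 * π * Complex.I * ((9 * (n 0 : ℝ) / 4 + (n 1 : ℝ) / 3 : ℝ):ℂ)) =
      Complex.exp (2 * π * Complex.I * (((n 0 : ℝ) / 4 : ℝ):ℂ)) * Complex.exp (2 * π * Complex.I * (((n 1 : ℝ) / 3 : ℝ):ℂ)) := by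
    rw [← Complex.exp_add, ← mul_add, ← exp_two_pi_int (2 * n 0) ((((n 0 : ℝ) / 4 : ℝ):ℂ) + (((n 1 : ℝ) / 3 : ℝ):ℂ))]
    congr 2; push_cast; ring
  rw [e1, e2] at h
  have hfac : (1 + Complex.exp (2 * π * Complex.I * (((n 0 : ℝ) / 4 : ℝ):ℂ))) * (1 + Complex.exp (2 * π * Complex.I * (((n 1 : ℝ) / 3 : ℝ):ℂ))) = 0 := by
    linear_combination h
  rcases mul_eq_zero.mp hfac with h1 | h1
  · -- exp (2 pi i n0/4) = -1
    have hm : Complex.exp (2 * π * Complex.I * (((n 0 : ℝ) / 4 : ℝ):ℂ)) = Complex.exp (π * Complex.I) := by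
      rw [Complex.exp_pi_mul_I]; linear_combination h1
    rw [Complex.exp_eq_exp_iff_exists_int] at hm
    obtain ⟨m, hm⟩ := hm
    have hpi : (π * Complex.I : ℂ) ≠ 0 := by simp [Real.pi_ne_zero, Complex.I_ne_zero]
    have : ((n 0 : ℤ) : ℂ) = ((2 + 4 * m : ℤ) : ℂ) := by
      apply mul_left_cancel₀ hpi
      push_cast at hm ⊢
      linear_combination 2 * hm
    have := Int.cast_injective this
    omega
  · exfalso
    have hc : (Complex.exp (2 * π * Complex.I * (((n 1 : ℝ) / 3 : ℝ):ℂ)))^3 = 1 := by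
      rw [← Complex.exp_nat_mul]
      have : ((3:ℕ):ℂ) * (2 * π * Complex.I * (((n 1 : ℝ) / 3 : ℝ):ℂ)) = (n 1 : ℂ) * (2 * π * Complex.I) := by
        push_cast; ring
      rw [this, Complex.exp_int_mul_two_pi_mul_I]
    have h2 : Complex.exp (2 * π * Complex.I * (((n 1 : ℝ) / 3 : ℝ):ℂ)) = -1 := by linear_combination h1
    rw [h2] at hc
    norm_num at hc

lemma no_L : ¬ ∃ L : Finset (Fin 2 → ℤ), L.card = B.card ∧
        ∀ l ∈ L, ∀ l' ∈ L,
          (l = l' → ∑ b ∈ B, Complex.exp (2 * π * Complex.I *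
              ((∑ i, ((R.map (Int.cast : ℤ → ℝ))⁻¹ *ᵥ (fun j => (b j : ℝ))) i * ((l i : ℝ) - (l' i : ℝ)) : ℝ) : ℂ))
              = (B.card : ℂ)) ∧
          (l ≠ l' → ∑ b ∈ B, Complex.exp (2 * π * Complex.I *
              ((∑ i, ((R.map (Int.cast : ℤ → ℝ))⁻¹ *ᵥ (fun j => (b j : ℝ))) i * ((l i : ℝ) - (l' i : ℝ)) : ℝ) : ℂ))
              = 0) := by
  rintro ⟨L, hL, h⟩
  have key : ∀ l ∈ L, ∀ l' ∈ L, l ≠ l' → (l 0 - l' 0) % 4 = 2 := by
    intro l hl l' hl' hne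
    have h1 := (h l hl l' hl').2 hne
    rw [sum_B (fun i => (l i : ℝ) - (l' i : ℝ))] at h1
    apply mask_zero (fun i => l i - l' i)
    simpa using h1
  rw [B_card] at hL
  obtain ⟨a, b, c, ha, hb, hc, hab, hac, hbc⟩ := Finset.two_lt_card_iff.mp (by omega : 2 < L.card)
  have h1 := key a ha b hb hab
  have h2 := key b hb c hc hbc
  have h3 := key a ha c hc hac
  omega

end

end Pool.Agent.H195R3.SpecMeas
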