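import Mathlib
import Pool.Agent.H195R3.SpecMeasC

set_option autoImplicit false
open MeasureTheory Matrix
open scoped ENNReal Real

namespace Pool.Agent.H195R3.SpecMeas

noncomputable section

/-- numerical value of a bit -/
def bit (p : Bool) : ℝ := if p then 1 else 0

lemma bit_nonneg (p : Bool) : 0 ≤ bit p := by cases p <;> simp [bit]
lemma bit_le (p : Bool) : bit p ≤ 1 := by cases p <;> simp [bit]
lemma bit_cases (p : Bool) : bit p = 0 ∨ bit p = 1 := by cases p <;> simp [bit]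

/-- digit vector -/
def dig (p : Bool × Bool) : Fin 2 → ℤ := ![(if p.1 then 1 else 0) + 8 * (if p.2 then 1 else 0), if p.2 then 1 else 0]

lemma dig_zero (p : Bool × Bool) : ((dig p 0 : ℤ) : ℝ) = bit p.1 + 8 * bit p.2 := by
  rcases p with ⟨a, b⟩; cases a <;> cases b <;> simp [dig, bit] <;> norm_num

lemma dig_one (p : Bool × Bool) : ((dig p 1 : ℤ) : ℝ) = bit p.2 := by
  rcases p with ⟨a, b⟩; cases a <;> cases b <;> simp [dig, bit]

lemma dig_mem (p : Bool × Bool) : dig p ∈ B := by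
  rcases p with ⟨a, b⟩; cases a <;> cases b <;> decide

lemma exists_dig {b : Fin 2 → ℤ} (hb : b ∈ B) : ∃ p, dig p = b := by
  simp only [B, Finset.mem_insert, Finset.mem_singleton] at hb
  rcases hb with rfl | rfl | rfl | rfl
  · exact ⟨(false, false), by decide⟩
  · exact ⟨(true, false), by decide⟩
  · exact ⟨(false, true), by decide⟩
  · exact ⟨(true, true), by decide⟩

def X0 (c : ℕ → Bool × Bool) : ℝ := ∑' k, (bit (c k).1 + 8 * bit (c k).2) * (1/4)^(k+1)
def X1 (c : ℕ → Bool × Bool) : ℝ := ∑' k, (bit (c k).2) * (1/3)^(k+1)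

def F (c : ℕ → Bool × Bool) : Fin 2 → ℝ := ![X0 c, X1 c]

def att : Set (Fin 2 → ℝ) := Set.range F

lemma bound0 (c : ℕ → Bool × Bool) (k : ℕ) : ‖(bit (c k).1 + 8 * bit (c k).2) * (1/4:ℝ)^(k+1)‖ ≤ 9 * (1/4:ℝ)^(k+1) := by
  have h1 := bit_nonneg (c k).1
  have h2 := bit_nonneg (c k).2
  have h3 := bit_le (c k).1
  have h4 := bit_le (c k).2
  rw [Real.norm_of_nonneg (by positivity)]
  gcongr
  linarith

lemma bound1 (c : ℕ → Bool × Bool) (k : ℕ) : ‖(bit (c k).2) * (1/3:ℝ)^(k+1)‖ ≤ 1 * (1/3:ℝ)^(k+1) := by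
  have h2 := bit_nonneg (c k).2
  have h4 := bit_le (c k).2
  rw [Real.norm_of_nonneg (by positivity)]
  gcongr

lemma summ0 : Summable (fun k : ℕ => 9 * (1/4:ℝ)^(k+1)) :=
  ((summable_nat_add_iff 1).mpr (summable_geometric_of_lt_one (by norm_num) (by norm_num))).mul_left 9

lemma summ1 : Summable (fun k : ℕ => 1 * (1/3:ℝ)^(k+1)) :=
  ((summable_nat_add_iff 1).mpr (summable_geometric_of_lt_one (by norm_num) (by norm_num))).mul_left 1

lemma cont_bit : Continuous bit := continuous_of_discreteTopology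

lemma cont_F : Continuous F := by
  have h0 : Continuous X0 := by
    refine continuous_tsum (fun k => ?_) summ0 (fun k c => bound0 c k)
    exact ((cont_bit.comp ((continuous_apply k).fst)).add
      ((cont_bit.comp ((continuous_apply k).snd)).const_mul 8 )).mul_const _
  have h1 : Continuous X1 := by
    refine continuous_tsum (fun k => ?_) summ1 (fun k c => bound1 c k)
    exact ((cont_bit.comp ((continuous_apply k).snd))).mul_const _
  refine continuous_pi fun i => ?_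
  fin_cases i
  · exact h0
  · exact h1

lemma compact_att : IsCompact att := isCompact_range cont_F

lemma X0_succ (c : ℕ → Bool × Bool) : X0 c = (X0 (fun k => c (k+1)) + (bit (c 0).1 + 8 * bit (c 0).2)) / 4 := by
  unfold X0
  rw [(Summable.of_norm_bounded summ0 (bound0 c)).tsum_eq_zero_add]
  have : ∀ k, (bit (c (k+1)).1 + 8 * bit (c (k+1)).2) * (1/4:ℝ)^(k+1+1) = (1/4) * ((bit (c (k+1)).1 + 8 * bit (c (k+1)).2) * (1/4:ℝ)^(k+1)) := by
    intro k; ring
  simp_rw [this]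
  rw [tsum_mul_left]
  ring

lemma X1_succ (c : ℕ → Bool × Bool) : X1 c = (X1 (fun k => c (k+1)) + bit (c 0).2) / 3 := by
  unfold X1
  rw [(Summable.of_norm_bounded summ1 (bound1 c)).tsum_eq_zero_add]
  have : ∀ k, (bit (c (k+1)).2) * (1/3:ℝ)^(k+1+1) = (1/3) * ((bit (c (k+1)).2) * (1/3:ℝ)^(k+1)) := by
    intro k; ring
  simp_rw [this]
  rw [tsum_mul_left]
  ring

lemma F_succ (c : ℕ → Bool × Bool) :
    F c = (R.map (Int.cast : ℤ → ℝ))⁻¹ *ᵥ (F (fun k => c (k+1)) + fun i => ((dig (c 0)) i : ℝ)) := by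
  refine Eq.trans ?_ (congrFun (phi_eq (dig (c 0))) (F (fun k => c (k+1)))).symm
  ext i; fin_cases i
  · simp only [F, Fin.zero_eta, cons_val_zero]
    rw [X0_succ c, dig_zero]
  · simp only [F, Fin.mk_one, cons_val_one]
    rw [X1_succ c, dig_one]
    rfl

lemma att_eq : att = ⋃ b ∈ B, (fun x : Fin 2 → ℝ => (R.map (Int.cast : ℤ → ℝ))⁻¹ *ᵥ (x + fun i => (b i : ℝ))) '' att := by
  ext x
  simp only [Set.mem_iUnion, Set.mem_image]
  constructor
  · rintro ⟨c, rfl⟩
    exact ⟨dig (c 0), dig_mem _, F (fun k => c (k+1)), ⟨_, rfl⟩, (F_succ c).symm⟩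
  · rintro ⟨b, hb, z, ⟨c, rfl⟩, rfl⟩
    obtain ⟨p, rfl⟩ := exists_dig hb
    refine ⟨fun k => Nat.casesOn k p c, ?_⟩
    rw [F_succ]
    rfl

lemma att_nonempty : att.Nonempty := ⟨_, ⟨fun _ => (false, false), rfl⟩⟩

lemma X0_bounds (c : ℕ → Bool × Bool) : 0 ≤ X0 c ∧ X0 c ≤ 3 := by
  constructor
  · refine tsum_nonneg fun k => ?_
    have h1 := bit_nonneg (c k).1
    have h2 := bit_nonneg (c k).2
    positivity
  · have hs : ∑' k : ℕ, 9 * (1/4:ℝ)^(k+1) = 3 := by
      rw [tsum_mul_left]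
      have : ∑' k : ℕ, (1/4:ℝ)^(k+1) = 1/3 := by
        have h := tsum_geometric_of_lt_one (r := (1/4:ℝ)) (by norm_num) (by norm_num)
        rw [(summable_geometric_of_lt_one (by norm_num) (by norm_num)).tsum_eq_zero_add] at h
        norm_num at h ⊢
        linarith
      rw [this]; norm_num
    rw [← hs]
    refine Summable.tsum_le_tsum (fun k => (Real.le_norm_self _).trans (bound0 c k)) ?_ summ0
    exact Summable.of_norm_bounded summ0 (bound0 c)

/-- first coordinate of a point of the attractor -/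
lemma att_coord {x : Fin 2 → ℝ} (hx : x ∈ att) : (0 ≤ x 0 ∧ x 0 ≤ 1) ∨ (2 ≤ x 0 ∧ x 0 ≤ 3) := by
  obtain ⟨c, rfl⟩ := hx
  have hb := X0_bounds (fun k => c (k+1))
  have h1 := bit_nonneg (c 0).1
  have h2 := bit_le (c 0).1
  have h : (F c) 0 = X0 c := rfl
  rw [h, X0_succ c]
  rcases bit_cases (c 0).2 with h0 | h0
  · left; rw [h0]; constructor <;> linarith
  · right; rw [h0]; constructor <;> linarith

lemma no_overlap : ∀ b ∈ B, ∀ b' ∈ B, b ≠ b' →
    μ (((fun x : Fin 2 → ℝ => (R.map (Int.cast : ℤ → ℝ))⁻¹ *ᵥ (x + fun i => (b i : ℝ))) '' att) ∩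
      ((fun x : Fin 2 → ℝ => (R.map (Int.cast : ℤ → ℝ))⁻¹ *ᵥ (x + fun i => (b' i : ℝ))) '' att)) = 0 := by
  intro b hb b' hb' hne
  obtain ⟨p, rfl⟩ := exists_dig hb
  obtain ⟨q, rfl⟩ := exists_dig hb'
  have hpq : p ≠ q := fun h => hne (by rw [h])
  set S : Set ℝ := {1/4, 1/2, 3/4, 2+1/4, 2+1/2, 2+3/4} with hS
  have hfin : S.Finite := Set.toFinite _
  have hsub : (((fun x : Fin 2 → ℝ => (R.map (Int.cast : ℤ → ℝ))⁻¹ *ᵥ (x + fun i => (dig p i : ℝ))) '' att) ∩
      ((fun x : Fin 2 → ℝ => (R.map (Int.cast : ℤ → ℝ))⁻¹ *ᵥ (x + fun i => (dig q i : ℝ))) '' att)) ⊆ {x | x 0 ∈ S} := by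
    rw [phi_eq, phi_eq]
    rintro z ⟨⟨x, hx, rfl⟩, ⟨x', hx', h⟩⟩
    have h0 := congrFun h 0
    simp only [cons_val_zero] at h0
    simp only [Set.mem_setOf_eq, cons_val_zero]
    rw [dig_zero, dig_zero] at h0
    rw [dig_zero]
    have c1 := att_coord hx
    have c2 := att_coord hx'
    rcases p with ⟨p1, p2⟩
    rcases q with ⟨q1, q2⟩
    have goal : ∀ t : ℝ, (t = 1/4 ∨ t = 1/2 ∨ t = 3/4 ∨ t = 2+1/4 ∨ t = 2+1/2 ∨ t = 2+3/4) → t ∈ S := by
      intro t ht; simpa [hS] using ht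
    apply goal
    cases p1 <;> cases p2 <;> cases q1 <;> cases q2 <;> simp [bit] at h0 hpq ⊢ <;>
      rcases c1 with ⟨a1, a2⟩ | ⟨a1, a2⟩ <;> rcases c2 with ⟨a3, a4⟩ | ⟨a3, a4⟩ <;>
      first
        | (exfalso; linarith)
        | (left; linarith)
        | (right; left; linarith)
        | (right; right; left; linarith)
        | (right; right; right; left; linarith)
        | (right; right; right; right; left; linarith)
        | (right; right; right; right; right; linarith)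
  refine measure_mono_null hsub ?_
  have hm : MeasurableSet {x : Fin 2 → ℝ | x 0 ∈ S} := (hfin.measurableSet).preimage (measurable_pi_apply 0)
  rw [μ, Measure.map_apply measurable_Φ hm]
  have hpre : Φ ⁻¹' {x : Fin 2 → ℝ | x 0 ∈ S} = S := by
    ext x; simp [Φ]
  rw [hpre, ν, Measure.smul_apply]
  have : (volume.restrict E) S = 0 := by
    refine le_antisymm ((Measure.restrict_apply_le _ _).trans ?_) bot_le
    rw [hfin.measure_zero]
  rw [this, smul_zero]

end

end Pool.Agent.H195R3.SpecMeas
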