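import Pool.Agent.H195R3.Example

/-!
# Definable surjections of the line onto all finite powers
-/

namespace Pool.Agent.H195R3

open Pool.Agent.H581R2 Filter Cardinal FirstOrder

/-- `x ↦ (f x, f (x + 1), …, f (x + (n - 1)))` is onto -/
theorem gen_surj_all {f : ℝ → ℝ} (hf : Generic f) (n : ℕ) (y : Fin n → ℝ) :
    ∃ x, ∀ i : Fin n, f (x + (i : ℕ)) = y i := by
  classical
  rcases Nat.eq_zero_or_pos n with rfl | hn
  · exact ⟨0, fun i => i.elim0⟩
  let yy : ℕ → ℝ := fun k => if h : k < n then y ⟨k, h⟩ else 0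
  let T : Task :=
    { Q := (Finset.range n).image fun k : ℕ =>
        ((MvPolynomial.X k : MvPolynomial ℕ ℚ) - (MvPolynomial.X 0 : MvPolynomial ℕ ℚ) -
          (MvPolynomial.C (k : ℚ) : MvPolynomial ℕ ℚ))
      s := fun _ => 0
      N := Finset.range n
      w := fun k => yy (k - n)
      τ := fun k => k + n
      y := fun _ => 0 }
  obtain ⟨x, ⟨h1, -, -, h4⟩, h5⟩ := hf T (by
    intro S hS
    have hS' : #(⋃ k : ℕ, (fun z => z - (k : ℝ)) '' S : Set ℝ) < continuum := by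
      refine (Cardinal.mk_iUnion_le _).trans_lt ?_
      refine Cardinal.mul_lt_of_lt aleph0_le_continuum (by simp [aleph0_lt_continuum]) ?_
      refine lt_of_le_of_lt ?_ hS
      exact ciSup_le' fun k => Cardinal.mk_image_le
    obtain ⟨a, ha⟩ : ∃ a, a ∉ (⋃ k : ℕ, (fun z => z - (k : ℝ)) '' S : Set ℝ) := by
      by_contra hcon
      push Not at hcon
      rw [Set.eq_univ_of_forall hcon, Cardinal.mk_univ, Cardinal.mk_real] at hS'
      exact lt_irrefl _ hS'
    have ha1 : ∀ k : ℕ, a + k ∉ S := fun k h =>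
      ha (Set.mem_iUnion.2 ⟨k, a + k, h, by ring⟩)
    refine ⟨fun k => if k < n then a + k else T.w k, ?_, ?_, ?_, ?_⟩
    · intro k hk
      have hk' : ¬ k < n := by simpa [T] using hk
      simp [hk']
    · intro k hk
      have hk' : k < n := by simpa [T] using hk
      simpa [hk'] using ha1 k
    · intro k hk l hl hkl
      have hk' : k < n := by simpa [T] using hk
      have hl' : l < n := by simpa [T] using hl
      simpa [hk', hl'] using hkl
    · intro q hq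
      obtain ⟨k, hk, rfl⟩ := Finset.mem_image.1 hq
      have hk' : k < n := Finset.mem_range.1 hk
      simp [T, hk', hn])
  have h6 : ∀ k, k < n → x k = x 0 + k := by
    intro k hk
    have h6 := h4 _ (Finset.mem_image.2 ⟨k, Finset.mem_range.2 hk, rfl⟩)
    simp only [T, map_sub, MvPolynomial.aeval_X, MvPolynomial.aeval_C, sign_eq_zero_iff] at h6
    have : (algebraMap ℚ ℝ) (k : ℚ) = (k : ℝ) := by simp
    rw [this] at h6
    linarith
  refine ⟨x 0, fun i => ?_⟩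
  rw [← h6 i i.2, h5 i (Finset.mem_range.2 i.2)]
  have h2 := h1 ((i : ℕ) + n) (by simp [T])
  simp only [T] at h2 ⊢
  rw [h2]
  simp [yy]

/-- the graph of `x ↦ (f x, f (x + 1), …, f (x + (n - 1)))` is definable -/
theorem def_graph_all (f : ℝ → ℝ) (n : ℕ) :
    @Set.Definable ℝ (Set.univ : Set ℝ) Lf (str f) (Fin 1 ⊕ Fin n)
      {v | ∀ i : Fin n, f (v (Sum.inl 0) + (i : ℕ)) = v (Sum.inr i)} := by
  let _ := str f
  have h : ∀ i : Fin n, (Set.univ : Set ℝ).Definable Lf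
      {v : Fin 1 ⊕ Fin n → ℝ | f (v (Sum.inl 0) + (i : ℕ)) = v (Sum.inr i)} := by
    intro i
    have h1 := (def_fn f (Sum.inr 0 : (Fin 1 ⊕ Fin n) ⊕ Fin 2) (Sum.inl (Sum.inr i))).inter
      ((def_add f (Sum.inl (Sum.inl 0) : (Fin 1 ⊕ Fin n) ⊕ Fin 2) (Sum.inr 1) (Sum.inr 0)).inter
        (def_const f (Sum.inr 1 : (Fin 1 ⊕ Fin n) ⊕ Fin 2) ((i : ℕ) : ℝ)))
    have h2 := h1.image_comp (Sum.inl : Fin 1 ⊕ Fin n → (Fin 1 ⊕ Fin n) ⊕ Fin 2)
    refine (congrArg (fun s => @Set.Definable ℝ (Set.univ : Set ℝ) Lf (str f)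
      (Fin 1 ⊕ Fin n) s) ?_).mp h2
    ext v
    constructor
    · rintro ⟨w, ⟨h1, h2, h3⟩, rfl⟩
      simp only [Set.mem_ofPred_eq] at h1 h2 h3
      show f (w (Sum.inl (Sum.inl 0)) + (i : ℕ)) = w (Sum.inl (Sum.inr i))
      rw [← h1, ← h2, h3]
    · intro hv
      exact ⟨Sum.elim v ![v (Sum.inl 0) + (i : ℕ), ((i : ℕ) : ℝ)], ⟨hv, rfl, rfl⟩, rfl⟩
  have h2 := Set.definable_iInter_of_finite h
  refine (congrArg (fun s => @Set.Definable ℝ (Set.univ : Set ℝ) Lf (str f)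
      (Fin 1 ⊕ Fin n) s) ?_).mp h2
  ext v
  simp [Set.mem_iInter]

end Pool.Agent.H195R3
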