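import Pool.Agent.H195R3.Acl

/-!
# The generic function: construction by transfinite recursion
-/

namespace Pool.Agent.H195R3

open Pool.Agent.H581R2 Filter Cardinal

/-- a task: finitely many polynomials with prescribed signs, a finite set of new indices, values
at all other indices, a target function, and a countable set to be avoided -/
structure Task where
  Q : Finset (MvPolynomial ℕ ℚ)
  s : MvPolynomial ℕ ℚ → SignType
  N : Finset ℕ
  w : ℕ → ℝ
  τ : ℕ → ℕ
  y : ℕ → ℝ

lemma mk_task_le : #Task ≤ continuum := by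
  have hinj : Function.Injective (fun T : Task => (T.Q, T.s, T.N, T.w, T.τ, T.y)) := by
    rintro ⟨⟩ ⟨⟩ h
    simp only [Prod.mk.injEq] at h
    obtain ⟨rfl, rfl, rfl, rfl, rfl, rfl⟩ := h
    rfl
  refine (Cardinal.mk_le_of_injective hinj).trans ?_
  have h1 : #(Finset (MvPolynomial ℕ ℚ)) ≤ continuum :=
    (Cardinal.mk_le_aleph0_iff.2 inferInstance).trans aleph0_le_continuum
  have h2 : #(MvPolynomial ℕ ℚ → SignType) ≤ continuum := by
    rw [← Cardinal.power_def]
    calc #SignType ^ #(MvPolynomial ℕ ℚ) ≤ ℵ₀ ^ ℵ₀ := by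
          refine (Cardinal.power_le_power_right (Cardinal.mk_le_aleph0_iff.2 inferInstance)).trans ?_
          exact Cardinal.power_le_power_left aleph0_ne_zero
            (Cardinal.mk_le_aleph0_iff.2 inferInstance)
      _ ≤ continuum := by rw [Cardinal.aleph0_power_aleph0]
  have h3 : #(Finset ℕ) ≤ continuum :=
    (Cardinal.mk_le_aleph0_iff.2 inferInstance).trans aleph0_le_continuum
  have h4 : #(ℕ → ℝ) ≤ continuum := by
    rw [← Cardinal.power_def, Cardinal.mk_real, Cardinal.mk_nat, Cardinal.continuum_power_aleph0]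
  have h5 : #(ℕ → ℕ) ≤ continuum := by
    rw [← Cardinal.power_def, Cardinal.mk_nat, Cardinal.aleph0_power_aleph0]
  have hm : ∀ {A B : Type}, #A ≤ continuum → #B ≤ continuum → #(A × B) ≤ continuum := by
    intro A B hA hB
    rw [Cardinal.mk_prod, Cardinal.lift_id, Cardinal.lift_id, ← Cardinal.continuum_mul_self]
    exact mul_le_mul' hA hB
  exact hm h1 (hm h2 (hm h3 (hm h4 (hm h5 h4))))

/-- `x` solves the task avoiding the set `S` -/
def Good (T : Task) (S : Set ℝ) (x : ℕ → ℝ) : Prop :=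
  (∀ k, k ∉ T.N → x k = T.w k) ∧ (∀ k ∈ T.N, x k ∉ S) ∧ Set.InjOn x T.N ∧
    ∀ q ∈ T.Q, SignType.sign (MvPolynomial.aeval x q) = T.s q

/-- the task can be solved avoiding any small set -/
def Large (T : Task) : Prop := ∀ S : Set ℝ, #S < continuum → ∃ x, Good T S x

/-- the generic function -/
theorem exists_generic : ∃ f : ℝ → ℝ, ∀ T : Task, Large T →
    ∃ x, Good T (Set.range T.y) x ∧ ∀ k ∈ T.N, f (x k) = x (T.τ k) := by
  classical
  obtain ⟨r, hwo, hr⟩ := Cardinal.exists_ord_eq Task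
  have hinit : ∀ T : Task, #{T' // r T' T} < continuum := fun T =>
    (Cardinal.card_typein_lt T hr).trans_le mk_task_le
  let SS : (T : Task) → ((T' : Task) → r T' T → ℕ → ℝ) → Set ℝ := fun T g =>
    (⋃ p : {T' // r T' T}, Set.range (g p.1 p.2)) ∪ Set.range T.y
  have hSS : ∀ T g, #(SS T g) < continuum := by
    intro T g
    refine (Cardinal.mk_union_le _ _).trans_lt (Cardinal.add_lt_of_lt aleph0_le_continuum
      ?_ ?_)
    · refine (Cardinal.mk_iUnion_le _).trans_lt ?_
      refine Cardinal.mul_lt_of_lt aleph0_le_continuum (hinit T) ?_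
      refine lt_of_le_of_lt ?_ aleph0_lt_continuum
      refine ciSup_le' fun p => ?_
      exact Cardinal.mk_le_aleph0_iff.2 (Set.countable_range _).to_subtype
    · exact (Cardinal.mk_le_aleph0_iff.2
        (Set.countable_range T.y).to_subtype).trans_lt aleph0_lt_continuum
  let step : (T : Task) → ((T' : Task) → r T' T → ℕ → ℝ) → ℕ → ℝ := fun T g =>
    if h : ∃ x, Good T (SS T g) x then h.choose else 0
  let X : Task → ℕ → ℝ := hwo.wf.fix step
  have hX : ∀ T, X T = step T (fun T' _ => X T') := fun T => hwo.wf.fix_eq step T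
  have hgood : ∀ T, Large T → Good T (SS T (fun T' _ => X T')) (X T) := by
    intro T hT
    have h := hT _ (hSS T (fun T' _ => X T'))
    rw [hX T]
    show Good T _ (if h : ∃ x, Good T (SS T (fun T' _ => X T')) x then h.choose else 0)
    rw [dif_pos h]
    exact h.choose_spec
  have hdisj : ∀ T T', Large T → r T' T → ∀ k ∈ T.N, ∀ l, X T k ≠ X T' l := by
    intro T T' hT hr' k hk l h
    refine (hgood T hT).2.1 k hk ?_
    refine Or.inl (Set.mem_iUnion.2 ⟨⟨T', hr'⟩, l, h.symm⟩)
  let f : ℝ → ℝ := fun z => if h : ∃ p : Task × ℕ, Large p.1 ∧ p.2 ∈ p.1.N ∧ X p.1 p.2 = z then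
    X h.choose.1 (h.choose.1.τ h.choose.2) else 0
  refine ⟨f, fun T hT => ⟨X T, ?_, fun k hk => ?_⟩⟩
  · obtain ⟨h1, h2, h3, h4⟩ := hgood T hT
    exact ⟨h1, fun k hk hmem => h2 k hk (Or.inr hmem), h3, h4⟩
  · have hex : ∃ p : Task × ℕ, Large p.1 ∧ p.2 ∈ p.1.N ∧ X p.1 p.2 = X T k := ⟨(T, k), hT, hk, rfl⟩
    show (if h : ∃ p : Task × ℕ, Large p.1 ∧ p.2 ∈ p.1.N ∧ X p.1 p.2 = X T k then
      X h.choose.1 (h.choose.1.τ h.choose.2) else 0) = X T (T.τ k)
    rw [dif_pos hex]
    obtain ⟨h1, h2, h3⟩ := hex.choose_spec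
    set p := hex.choose with hp
    have hTT : p.1 = T := by
      rcases trichotomous_of r p.1 T with h | h | h
      · exact absurd h3.symm (hdisj T p.1 hT h k hk p.2)
      · exact h
      · exact absurd h3 (hdisj p.1 T h1 h p.2 h2 k)
    have hkk : p.2 = k := by
      rw [hTT] at h2 h3
      exact (hgood T hT).2.2.1 h2 hk h3
    rw [hTT, hkk]

end Pool.Agent.H195R3
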