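import Pool.Agent.H195R3.BackForth

/-!
# The expansion of the real field by a generic function: definable countable sets are finite
-/

namespace Pool.Agent.H195R3

open Pool.Agent.H581R2 Filter Cardinal FirstOrder

/-- relation symbols: graphs of addition and multiplication, the order, the graph of `f` -/
inductive Rels : ℕ → Type
  | add : Rels 3
  | mul : Rels 3
  | le : Rels 2
  | fn : Rels 2

/-- the language of ordered rings, in relational form, with one more unary function -/
def Lf : FirstOrder.Language.{0, 0} := ⟨fun _ => Empty, Rels⟩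

/-- the ordered field of real numbers expanded by the function `f` -/
@[reducible] def str (f : ℝ → ℝ) : Lf.Structure ℝ where
  funMap := fun g => g.elim
  RelMap := fun {n} r xs => match n, r, xs with
    | _, Rels.add, xs => xs 0 + xs 1 = xs 2
    | _, Rels.mul, xs => xs 0 * xs 1 = xs 2
    | _, Rels.le, xs => xs 0 ≤ xs 1
    | _, Rels.fn, xs => f (xs 0) = xs 1

lemma term_index (f : ℝ → ℝ) {α : Type} {l : ℕ} (t : Lf.Term (α ⊕ Fin l)) (a : α → ℕ)
    (b : Fin l → ℕ) : ∃ k, ∀ z : ℕ → ℝ,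
      @Language.Term.realize Lf ℝ (str f) _ (Sum.elim (z ∘ a) (z ∘ b)) t = z k := by
  cases t with
  | var x =>
    rcases x with x | x
    · exact ⟨a x, fun z => rfl⟩
    · exact ⟨b x, fun z => rfl⟩
  | func g _ => exact g.elim

lemma ST.rel {v w : ℕ → ℕ → ℝ} (h : ST v w) (p : SignType → Prop) (q : MvPolynomial ℕ ℚ)
    (hv : ∀ᶠ n in (HF : Filter ℕ), p (SignType.sign (MvPolynomial.aeval (v n) q))) :
    ∀ᶠ n in (HF : Filter ℕ), p (SignType.sign (MvPolynomial.aeval (w n) q)) := by
  filter_upwards [h q, hv] with n h1 h2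
  rwa [← h1]

theorem truth {f : ℝ → ℝ} (hf : Generic f) {α : Type} [Finite α] {l : ℕ}
    (φ : Lf.BoundedFormula α l) : ∀ v w : ℕ → ℕ → ℝ, BF f v w → ∀ (a : α → ℕ) (b : Fin l → ℕ),
      (∀ᶠ n in (HF : Filter ℕ),
        @Language.BoundedFormula.Realize Lf ℝ (str f) _ _ φ (v n ∘ a) (v n ∘ b)) →
      (∀ᶠ n in (HF : Filter ℕ),
        @Language.BoundedFormula.Realize Lf ℝ (str f) _ _ φ (w n ∘ a) (w n ∘ b)) := by
  let _ := str f
  induction φ with
  | falsum =>
    intro v w h a b hv
    obtain ⟨n, hn⟩ := hv.exists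
    exact absurd hn id
  | equal t1 t2 =>
    intro v w h a b hv
    obtain ⟨k1, hk1⟩ := term_index f t1 a b
    obtain ⟨k2, hk2⟩ := term_index f t2 a b
    have hv' : ∀ᶠ n in (HF : Filter ℕ), v n k1 = v n k2 := by
      filter_upwards [hv] with n hn
      have hn' : t1.realize (Sum.elim (v n ∘ a) (v n ∘ b)) =
        t2.realize (Sum.elim (v n ∘ a) (v n ∘ b)) := hn
      rwa [hk1, hk2] at hn'
    have h1 := st_eq_of_ST h.ty.symm (coe_eq.2 hv' : st v k1 = st v k2)
    filter_upwards [coe_eq.1 h1] with n hn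
    show t1.realize (Sum.elim (w n ∘ a) (w n ∘ b)) = t2.realize (Sum.elim (w n ∘ a) (w n ∘ b))
    rw [hk1, hk2]
    exact hn
  | rel R ts =>
    intro v w h a b hv
    have hidx : ∀ i, ∃ k, ∀ z : ℕ → ℝ,
      (ts i).realize (Sum.elim (z ∘ a) (z ∘ b)) = z k := fun i => term_index f (ts i) a b
    choose k hk using hidx
    cases R with
    | add =>
      have h1 := h.ty.rel (fun s => s = 0)
        (MvPolynomial.X (k 0) + MvPolynomial.X (k 1) - MvPolynomial.X (k 2)) (by
          filter_upwards [hv] with n hn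
          have hn' : (ts 0).realize (Sum.elim (v n ∘ a) (v n ∘ b)) +
            (ts 1).realize (Sum.elim (v n ∘ a) (v n ∘ b)) =
            (ts 2).realize (Sum.elim (v n ∘ a) (v n ∘ b)) := hn
          rw [hk, hk, hk] at hn'
          simp [hn'])
      filter_upwards [h1] with n hn
      show (ts 0).realize (Sum.elim (w n ∘ a) (w n ∘ b)) +
            (ts 1).realize (Sum.elim (w n ∘ a) (w n ∘ b)) =
            (ts 2).realize (Sum.elim (w n ∘ a) (w n ∘ b))
      rw [hk, hk, hk]
      rw [sign_eq_zero_iff] at hn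
      simp only [map_sub, map_add, MvPolynomial.aeval_X] at hn
      linarith
    | mul =>
      have h1 := h.ty.rel (fun s => s = 0)
        (MvPolynomial.X (k 0) * MvPolynomial.X (k 1) - MvPolynomial.X (k 2)) (by
          filter_upwards [hv] with n hn
          have hn' : (ts 0).realize (Sum.elim (v n ∘ a) (v n ∘ b)) *
            (ts 1).realize (Sum.elim (v n ∘ a) (v n ∘ b)) =
            (ts 2).realize (Sum.elim (v n ∘ a) (v n ∘ b)) := hn
          rw [hk, hk, hk] at hn'
          simp [hn'])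
      filter_upwards [h1] with n hn
      show (ts 0).realize (Sum.elim (w n ∘ a) (w n ∘ b)) *
            (ts 1).realize (Sum.elim (w n ∘ a) (w n ∘ b)) =
            (ts 2).realize (Sum.elim (w n ∘ a) (w n ∘ b))
      rw [hk, hk, hk]
      rw [sign_eq_zero_iff] at hn
      simp only [map_sub, map_mul, MvPolynomial.aeval_X] at hn
      linarith
    | le =>
      have h1 := h.ty.rel (fun s => s ≠ 1)
        (MvPolynomial.X (k 0) - MvPolynomial.X (k 1)) (by
          filter_upwards [hv] with n hn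
          have hn' : (ts 0).realize (Sum.elim (v n ∘ a) (v n ∘ b)) ≤
            (ts 1).realize (Sum.elim (v n ∘ a) (v n ∘ b)) := hn
          rw [hk, hk] at hn'
          rw [Ne, sign_eq_one_iff]
          simp only [map_sub, MvPolynomial.aeval_X, sub_pos, not_lt]
          exact hn')
      filter_upwards [h1] with n hn
      show (ts 0).realize (Sum.elim (w n ∘ a) (w n ∘ b)) ≤
            (ts 1).realize (Sum.elim (w n ∘ a) (w n ∘ b))
      rw [hk, hk]
      rw [Ne, sign_eq_one_iff] at hn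
      simpa only [map_sub, MvPolynomial.aeval_X, sub_pos, not_lt] using hn
    | fn =>
      have h1 := (h.fc (k 0) (k 1)).1 (by
          filter_upwards [hv] with n hn
          have hn' : f ((ts 0).realize (Sum.elim (v n ∘ a) (v n ∘ b))) =
            (ts 1).realize (Sum.elim (v n ∘ a) (v n ∘ b)) := hn
          rwa [hk, hk] at hn')
      filter_upwards [h1] with n hn
      show f ((ts 0).realize (Sum.elim (w n ∘ a) (w n ∘ b))) =
            (ts 1).realize (Sum.elim (w n ∘ a) (w n ∘ b))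
      rw [hk, hk]
      exact hn
  | imp φ ψ ih1 ih2 =>
    intro v w h a b hv
    have hv' := Ultrafilter.eventually_imp.1 (hv.mono fun n hn =>
      (show φ.Realize (v n ∘ a) (v n ∘ b) → ψ.Realize (v n ∘ a) (v n ∘ b) from hn))
    have : ∀ᶠ n in (HF : Filter ℕ), φ.Realize (w n ∘ a) (w n ∘ b) →
        ψ.Realize (w n ∘ a) (w n ∘ b) :=
      Ultrafilter.eventually_imp.2 fun h1 => ih2 v w h a b (hv' (ih1 w v h.symm a b h1))
    exact this
  | all φ ih =>
    rename_i l'
    intro v w h a b hv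
    by_contra hcon
    have hcon' := Ultrafilter.eventually_not.2 hcon
    have hex : ∀ n, ∃ x : ℝ, (¬ (Language.BoundedFormula.all φ).Realize (w n ∘ a) (w n ∘ b)) →
        ¬ φ.Realize (w n ∘ a) (Fin.snoc (w n ∘ b) x) := by
      intro n
      by_cases hn : (Language.BoundedFormula.all φ).Realize (w n ∘ a) (w n ∘ b)
      · exact ⟨0, fun h => absurd hn h⟩
      · have hn' := hn
        rw [Language.BoundedFormula.realize_all] at hn'
        push Not at hn'
        obtain ⟨x, hx⟩ := hn'
        exact ⟨x, fun _ => hx⟩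
    choose x hx using hex
    obtain ⟨w', v', j, k0, h', hj1, hj2, hk0, -⟩ := extend hf h.symm x ∅ Set.countable_empty
    have e1 : ∀ᶠ n in (HF : Filter ℕ), ∀ i, v' n (j (a i)) = v n (a i) :=
      eventually_all.2 fun i => coe_eq.1 (hj2 (a i))
    have e2 : ∀ᶠ n in (HF : Filter ℕ), ∀ i, v' n (j (b i)) = v n (b i) :=
      eventually_all.2 fun i => coe_eq.1 (hj2 (b i))
    have e3 : ∀ᶠ n in (HF : Filter ℕ), ∀ i, w' n (j (a i)) = w n (a i) :=
      eventually_all.2 fun i => coe_eq.1 (hj1 (a i))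
    have e4 : ∀ᶠ n in (HF : Filter ℕ), ∀ i, w' n (j (b i)) = w n (b i) :=
      eventually_all.2 fun i => coe_eq.1 (hj1 (b i))
    have e5 : ∀ᶠ n in (HF : Filter ℕ), w' n k0 = x n := coe_eq.1 hk0
    have hsnoc : ∀ (z : ℕ → ℝ), z ∘ (Fin.snoc (j ∘ b) k0 : Fin (l' + 1) → ℕ) =
        Fin.snoc (z ∘ (j ∘ b)) (z k0) := by
      intro z
      funext i
      refine Fin.lastCases ?_ (fun i => ?_) i
      · simp
      · simp
    have h1 : ∀ᶠ n in (HF : Filter ℕ), φ.Realize (v' n ∘ (j ∘ a))
        (v' n ∘ (Fin.snoc (j ∘ b) k0 : Fin (l' + 1) → ℕ)) := by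
      filter_upwards [hv, e1, e2] with n hn h1 h2
      rw [Language.BoundedFormula.realize_all] at hn
      rw [hsnoc]
      have e6 : v' n ∘ (j ∘ a) = v n ∘ a := funext fun i => h1 i
      have e7 : v' n ∘ (j ∘ b) = v n ∘ b := funext fun i => h2 i
      rw [e6, e7]
      exact hn (v' n k0)
    have h2 := ih v' w' h'.symm (j ∘ a) (Fin.snoc (j ∘ b) k0) h1
    obtain ⟨n, g1, g2, g3, g4, g5⟩ := (hcon'.and (h2.and (e3.and (e4.and e5)))).exists
    apply hx n g1
    rw [hsnoc] at g2
    have e6 : w' n ∘ (j ∘ a) = w n ∘ a := funext fun i => g3 i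
    have e7 : w' n ∘ (j ∘ b) = w n ∘ b := funext fun i => g4 i
    rw [e6, e7, g5] at g2
    exact g2

/-- every countable definable set of real numbers is finite -/
theorem finite_of_countable {f : ℝ → ℝ} (hf : Generic f) (Y : Set ℝ)
    (hdef : @Set.Definable ℝ (Set.univ : Set ℝ) Lf (str f) (Fin 1) {v | v 0 ∈ Y})
    (hY : Y.Countable) : Y.Finite := by
  classical
  let _ := str f
  by_contra hinf
  have hinf' : Y.Infinite := hinf
  obtain ⟨A0, -, hA0⟩ := Set.definable_iff_finitely_definable.1 hdef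
  obtain ⟨φ, hφ⟩ := Set.definable_iff_exists_formula_sum.1 hA0
  have hmem : ∀ t : ℝ, t ∈ Y ↔ φ.Realize (Sum.elim (fun c : (A0 : Set ℝ) => (c : ℝ))
      (fun _ : Fin 1 => t)) := by
    intro t
    have := Set.ext_iff.1 hφ (fun _ => t)
    exact this
  -- a closed tuple containing the parameters
  obtain ⟨u, hcl, hsub, -⟩ := exists_closed f
    (A := Set.range fun c : (A0 : Set ℝ) => (((fun _ => (c : ℝ)) : ℕ → ℝ) : RS))
    (Set.countable_range _)
  have hidx : ∀ c : (A0 : Set ℝ), ∃ i, st u i = (((fun _ => (c : ℝ)) : ℕ → ℝ) : RS) :=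
    fun c => hsub ⟨c, rfl⟩
  choose i hi using hidx
  -- a new point of the definable set
  obtain ⟨x, hx⟩ := sat (W := ℝ) (fun j n => {z | z ∈ Y ∧ z ≠ u n j}) (by
    intro K
    refine Eventually.of_forall fun n => ?_
    obtain ⟨z, hz1, hz2⟩ := hinf'.exists_notMem_finset ((Finset.range (K + 1)).image (u n))
    refine ⟨z, fun j hj => ⟨hz1, fun h => hz2 ?_⟩⟩
    rw [h]
    exact Finset.mem_image_of_mem _ (Finset.mem_range.2 (by omega)))
  have hxnew : (x : RS) ∉ Set.range (st u) := by
    rintro ⟨j, hj⟩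
    obtain ⟨n, h1, h2⟩ := ((coe_eq.1 hj).and (hx j)).exists
    exact h2.2 h1.symm
  obtain ⟨v', w', j, k0, h', hj1, hj2, hk0, hav⟩ := extend hf (BF.refl hcl) x Y hY
  have hav' := hav hxnew
  let a : (A0 : Set ℝ) ⊕ Fin 1 → ℕ := Sum.elim (fun c => j (i c)) (fun _ => k0)
  have e1 : ∀ᶠ n in (HF : Filter ℕ), ∀ c : (A0 : Set ℝ), v' n (j (i c)) = c :=
    eventually_all.2 fun c => coe_eq.1 ((hj1 (i c)).trans (hi c))
  have e2 : ∀ᶠ n in (HF : Filter ℕ), ∀ c : (A0 : Set ℝ), w' n (j (i c)) = c :=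
    eventually_all.2 fun c => coe_eq.1 ((hj2 (i c)).trans (hi c))
  have h1 : ∀ᶠ n in (HF : Filter ℕ), φ.Realize (v' n ∘ a) := by
    filter_upwards [e1, coe_eq.1 hk0, hx 0] with n h1 h2 h3
    have e3 : v' n ∘ a = Sum.elim (fun c : (A0 : Set ℝ) => (c : ℝ)) (fun _ : Fin 1 => x n) := by
      funext z
      rcases z with z | z
      · exact h1 z
      · exact h2
    rw [e3]
    exact (hmem _).1 h3.1
  have h2 : ∀ᶠ n in (HF : Filter ℕ), φ.Realize (w' n ∘ a) := by
    have h3 := truth hf φ v' w' h' a Fin.elim0 (by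
      filter_upwards [h1] with n hn
      rw [Language.Formula.Realize] at hn
      rwa [Subsingleton.elim (v' n ∘ (Fin.elim0 : Fin 0 → ℕ))])
    filter_upwards [h3] with n hn
    rw [Language.Formula.Realize]
    rwa [Subsingleton.elim (w' n ∘ (Fin.elim0 : Fin 0 → ℕ))] at hn
  obtain ⟨n, g1, g2, g3⟩ := (h2.and (e2.and hav')).exists
  apply g3
  rw [hmem]
  have e3 : w' n ∘ a = Sum.elim (fun c : (A0 : Set ℝ) => (c : ℝ))
      (fun _ : Fin 1 => w' n k0) := by
    funext z
    rcases z with z | z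
    · exact g2 z
    · rfl
  rw [← e3]
  exact g1

end Pool.Agent.H195R3
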